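import Pool.Agent.W928.CB.Star

/-!
# CB-CLASS: self embeddings and bi-embeddability
-/

namespace Pool.Agent.W928.CB
open Set Pool.Agent.W919.CB

section
variable {α β γ : Type} [LinearOrder α] [LinearOrder β] [LinearOrder γ]

theorem cemb_lt {f : α → β} (hf : CEmb α β f) (a b : α) : f a < f b ↔ a < b := by
  rw [← not_le, ← not_le, hf.1]

theorem cemb_inj {f : α → β} (hf : CEmb α β f) : Function.Injective f := by
  intro a b hab
  exact le_antisymm ((hf.1 a b).1 hab.le) ((hf.1 b a).1 hab.ge)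

theorem cemb_comp {f : α → β} {g : β → γ} (hf : CEmb α β f) (hg : CEmb β γ g) :
    CEmb α γ (g ∘ f) := by
  refine ⟨fun a b => (hg.1 _ _).trans (hf.1 _ _), ⟨?_⟩⟩
  rintro _ ⟨a, rfl⟩ _ ⟨b, rfl⟩ t ht
  obtain ⟨s, rfl⟩ := hg.2.out ⟨f a, rfl⟩ ⟨f b, rfl⟩ ht
  obtain ⟨r, rfl⟩ := hf.2.out ⟨a, rfl⟩ ⟨b, rfl⟩ ⟨(hg.1 _ _).1 ht.1, (hg.1 _ _).1 ht.2⟩
  exact ⟨r, rfl⟩

theorem cemb_id : CEmb α α id := by
  refine ⟨fun a b => Iff.rfl, ?_⟩
  rw [range_id]
  exact ordConnected_univ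

theorem cemb_iter {h : α → α} (hh : CEmb α α h) (n : ℕ) : CEmb α α (h^[n]) := by
  induction n with
  | zero => exact cemb_id
  | succ n ih =>
    rw [Function.iterate_succ]
    exact cemb_comp hh ih

/-- an order isomorphism from a function onto a set -/
theorem iso_of_range {g : α → β} (hg : ∀ a b, a < b → g a < g b) : IsoS (univ : Set α) (range g) := by
  refine isoS_of_rel (fun s t => g s.1 = t.1) ?_ ?_ ?_
  · intro s
    exact ⟨⟨g s.1, s.1, rfl⟩, rfl⟩
  · rintro ⟨t, a, rfl⟩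
    exact ⟨⟨a, trivial⟩, rfl⟩
  · rintro ⟨s, _⟩ ⟨s', _⟩ ⟨t, ht⟩ ⟨t', ht'⟩ h1 h2
    simp only at h1 h2
    subst h1 h2
    simp only [Subtype.mk_lt_mk]
    constructor
    · exact hg s s'
    · intro h
      rcases lt_trichotomy s s' with h1 | h1 | h1
      · exact h1
      · subst h1
        exact absurd h (lt_irrefl _)
      · exact absurd h (hg _ _ h1).asymm

end

theorem t_lind : StLind := by
  classical
  intro α _ h x hh hx
  let Rt : Set α := {t | ∃ n, ∀ s ∈ range (h^[n]), s < t}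
  have hlt := cemb_lt hh
  have hRt : IsUpperSet Rt := by
    rintro a b hab ⟨n, hn⟩
    exact ⟨n, fun s hs => (hn s hs).trans_le hab⟩
  have hstep : ∀ t, h t ∈ Rt → t ∈ Rt := by
    rintro t ⟨n, hn⟩
    refine ⟨n, ?_⟩
    rintro _ ⟨r, rfl⟩
    rw [← hlt]
    apply hn
    exact ⟨h r, (Function.iterate_succ_apply h n r).symm.trans (Function.iterate_succ_apply' h n r)⟩
  have hstep2 : ∀ t, t ∈ Rt → h t ∈ Rt := by
    rintro t ⟨n, hn⟩
    refine ⟨n + 1, ?_⟩
    rintro _ ⟨r, rfl⟩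
    rw [Function.iterate_succ_apply', hlt]
    exact hn _ ⟨r, rfl⟩
  let g : α → α := fun t => if t ∈ Rt then t else h t
  have hg1 : ∀ t ∈ Rt, g t = t := fun t ht => if_pos ht
  have hg2 : ∀ t, t ∉ Rt → g t = h t := fun t ht => if_neg ht
  have hgm : ∀ a b, a < b → g a < g b := by
    intro a b hab
    by_cases ha : a ∈ Rt
    · rw [hg1 a ha, hg1 b (hRt hab.le ha)]
      exact hab
    · by_cases hb : b ∈ Rt
      · rw [hg2 a ha, hg1 b hb]
        by_contra hcon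
        exact ha (hstep a (hRt (not_lt.1 hcon) hb))
      · rw [hg2 a ha, hg2 b hb, hlt]
        exact hab
  have hrange : range g = {a | ∃ t, h t ≤ a} := by
    ext a
    constructor
    · rintro ⟨t, rfl⟩
      by_cases ht : t ∈ Rt
      · rw [hg1 t ht]
        obtain ⟨n, hn⟩ := ht
        refine ⟨h^[n] t, ?_⟩
        have := hn (h^[n + 1] t) ⟨h t, (Function.iterate_succ_apply h n t).symm⟩
        rw [Function.iterate_succ_apply'] at this
        exact this.le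
      · rw [hg2 t ht]
        exact ⟨t, le_rfl⟩
    · rintro ⟨t, ht⟩
      by_cases ha : a ∈ Rt
      · exact ⟨a, hg1 a ha⟩
      · have h1 : ∃ s, a ≤ h s := by
          by_contra hcon
          push Not at hcon
          refine ha ⟨1, ?_⟩
          rintro _ ⟨r, rfl⟩
          exact hcon r
        obtain ⟨s, hs⟩ := h1
        obtain ⟨r, rfl⟩ := hh.2.out ⟨t, rfl⟩ ⟨s, rfl⟩ ⟨ht, hs⟩
        refine ⟨r, hg2 r fun hr => ha (hstep2 r hr)⟩
  refine ⟨x, range g, ?_, ?_, univ_iso (iso_of_range hgm)⟩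
  · rw [hrange]
    rintro a ⟨t, ht⟩
    exact (hx t).trans_le ht
  · rw [hrange]
    rintro a b hab ⟨t, ht⟩
    exact ⟨t, ht.trans hab⟩

section
variable {α β : Type} [LinearOrder α] [LinearOrder β]

theorem cemb_dual {f : α → β} (hf : CEmb α β f) :
    CEmb αᵒᵈ βᵒᵈ (fun a => OrderDual.toDual (f (OrderDual.ofDual a))) := by
  refine ⟨fun a b => hf.1 _ _, ⟨?_⟩⟩
  rintro _ ⟨a, rfl⟩ _ ⟨b, rfl⟩ t ht
  obtain ⟨s, hs⟩ := hf.2.out (⟨OrderDual.ofDual b, rfl⟩ : f (OrderDual.ofDual b) ∈ range f)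
    (⟨OrderDual.ofDual a, rfl⟩ : f (OrderDual.ofDual a) ∈ range f)
    (show OrderDual.ofDual t ∈ Icc _ _ from ⟨ht.2, ht.1⟩)
  exact ⟨OrderDual.toDual s, by simp [hs]⟩

theorem rightSA_of_dual (h : LeftSA αᵒᵈ) : RightSA α := by
  obtain ⟨x, T, h1, h2, ⟨e⟩⟩ := h
  refine ⟨OrderDual.ofDual x, OrderDual.toDual ⁻¹' T, fun a ha => h1 ha, ?_, univ_iso ?_⟩
  · intro a b hab ha
    exact h2 (show OrderDual.toDual a ≤ OrderDual.toDual b from hab) ha
  · have h3 : IsoS (univ : Set αᵒᵈ) T := ⟨OrderIso.Set.univ.trans e⟩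
    exact isoS_undual h3

theorem leftSA_dual (h : RightSA α) : LeftSA αᵒᵈ := by
  obtain ⟨x, T, h1, h2, ⟨e⟩⟩ := h
  refine ⟨OrderDual.toDual x, OrderDual.ofDual ⁻¹' T, fun a ha => h1 ha, ?_, univ_iso ?_⟩
  · intro a b hab ha
    exact h2 (show OrderDual.ofDual b ≤ OrderDual.ofDual a from hab) ha
  · have h3 : IsoS (univ : Set α) T := ⟨OrderIso.Set.univ.trans e⟩
    exact isoS_dual h3

/-- The mirror image of `t_lind`. -/
theorem rind {h : α → α} {y : α} (hh : CEmb α α h) (hy : ∀ t, h t < y) : RightSA α :=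
  rightSA_of_dual (t_lind αᵒᵈ _ (OrderDual.toDual y) (cemb_dual hh) fun t => hy _)

/-- A convex embedding onto an upper set, from an isomorphism. -/
theorem cemb_of_iso {T : Set β} (k : α ≃o T) (hT : T.OrdConnected) :
    CEmb α β (fun a => (k a).1) := by
  refine ⟨fun a b => ?_, ?_⟩
  · rw [Subtype.coe_le_coe, k.le_iff_le]
  · have : range (fun a => (k a).1) = T := by
      ext t
      constructor
      · rintro ⟨a, rfl⟩
        exact (k a).2
      · intro ht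
        exact ⟨k.symm ⟨t, ht⟩, by simp⟩
    rw [this]
    exact hT

theorem leftSA_push {f : α → β} {g : β → α} (hf : CEmb α β f) (hg : CEmb β α g)
    (h : LeftSA α) : LeftSA β := by
  obtain ⟨x, T, h1, h2, ⟨k⟩⟩ := h
  have hk := cemb_of_iso k h2.ordConnected
  refine t_lind β _ (f x) (cemb_comp (cemb_comp hg hk) hf) fun t => ?_
  simp only [Function.comp_apply]
  rw [cemb_lt hf]
  exact h1 (k (g t)).2

theorem rightSA_push {f : α → β} {g : β → α} (hf : CEmb α β f) (hg : CEmb β α g)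
    (h : RightSA α) : RightSA β :=
  rightSA_of_dual (leftSA_push (cemb_dual hf) (cemb_dual hg) (leftSA_dual h))

/-- If `α` is not right-self-absorbing the ranges are upper sets. -/
theorem upper_of_not {f : α → β} {g : β → α} (hf : CEmb α β f) (hg : CEmb β α g)
    (h : ¬ RightSA α) : IsUpperSet (range f) ∧ IsUpperSet (range g) := by
  have hh := cemb_comp hf hg
  have key : ∀ y : α, ∃ t, y ≤ g (f t) := by
    intro y
    by_contra hcon
    push Not at hcon
    exact h (rind hh hcon)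
  constructor
  · rintro _ b hab ⟨t, rfl⟩
    obtain ⟨s, hs⟩ := key (g b)
    exact hf.2.out ⟨t, rfl⟩ ⟨s, rfl⟩ ⟨hab, (hg.1 _ _).1 hs⟩
  · rintro _ b hab ⟨t, rfl⟩
    obtain ⟨s, hs⟩ := key b
    exact hg.2.out ⟨t, rfl⟩ ⟨f s, rfl⟩ ⟨hab, hs⟩

theorem lower_of_not {f : α → β} {g : β → α} (hf : CEmb α β f) (hg : CEmb β α g)
    (h : ¬ LeftSA α) : IsLowerSet (range f) ∧ IsLowerSet (range g) := by
  have hh := cemb_comp hf hg
  have key : ∀ y : α, ∃ t, g (f t) ≤ y := by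
    intro y
    by_contra hcon
    push Not at hcon
    exact h (t_lind α _ y hh hcon)
  constructor
  · rintro _ b hab ⟨t, rfl⟩
    obtain ⟨s, hs⟩ := key (g b)
    exact hf.2.out ⟨s, rfl⟩ ⟨t, rfl⟩ ⟨(hg.1 _ _).1 hs, hab⟩
  · rintro _ b hab ⟨t, rfl⟩
    obtain ⟨s, hs⟩ := key b
    exact hg.2.out ⟨f s, rfl⟩ ⟨t, rfl⟩ ⟨hs, hab⟩

end

theorem t_class : StClass := by
  intro α β _ _ f g hf hg
  refine ⟨fun h1 h2 => ?_, fun h => upper_of_not hf hg h, leftSA_push hf hg, rightSA_push hf hg⟩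
  obtain ⟨h3, -⟩ := upper_of_not hf hg h2
  obtain ⟨h4, -⟩ := lower_of_not hf hg h1
  have hsurj : range f = univ := by
    refine eq_univ_of_forall fun b => ?_
    rcases le_total b (f (g b)) with h | h
    · exact h4 h ⟨_, rfl⟩
    · exact h3 h ⟨_, rfl⟩
  obtain ⟨e⟩ := iso_of_range (g := f) fun a b hab => (cemb_lt hf a b).2 hab
  rw [hsurj] at e
  exact ⟨OrderIso.Set.univ.symm.trans (e.trans OrderIso.Set.univ)⟩

end Pool.Agent.W928.CB
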