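import Pool.Agent.W928.CB.LemC

/-!
# CB-STAR: the one and two sided criteria
-/

namespace Pool.Agent.W928.CB
open Set Pool.Agent.W919.CB

section
variable {α β γ : Type} [LinearOrder α] [LinearOrder β] [LinearOrder γ]

theorem isoS_val {S : Set α} (A : Set S) : IsoS A (Subtype.val '' A) := by
  refine isoS_of_rel (fun s t => s.1.1 = t.1) ?_ ?_ ?_
  · intro s
    exact ⟨⟨s.1.1, s.1, s.2, rfl⟩, rfl⟩
  · rintro ⟨t, a, ha, rfl⟩
    exact ⟨⟨a, ha⟩, rfl⟩
  · rintro s s' t t' h1 h2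
    change s.1.1 < s'.1.1 ↔ t.1 < t'.1
    rw [h1, h2]

theorem val_Ioi_Iio {z : α} (u : Iio z) : Subtype.val '' (Ioi u) = Ioo u.1 z := by
  ext t
  constructor
  · rintro ⟨a, ha, rfl⟩
    exact ⟨ha, a.2⟩
  · rintro ⟨h1, h2⟩
    exact ⟨⟨t, h2⟩, h1, rfl⟩

theorem val_Ioi_Ioo {x y : α} (u : Ioo x y) : Subtype.val '' (Ioi u) = Ioo u.1 y := by
  ext t
  constructor
  · rintro ⟨a, ha, rfl⟩
    exact ⟨ha, a.2.2⟩
  · rintro ⟨h1, h2⟩
    exact ⟨⟨t, u.2.1.trans h1, h2⟩, h1, rfl⟩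

theorem val_Ioo_Iio {z : α} (u w : Iio z) : Subtype.val '' (Ioo u w) = Ioo u.1 w.1 := by
  ext t
  constructor
  · rintro ⟨a, ha, rfl⟩
    exact ⟨ha.1, ha.2⟩
  · rintro ⟨h1, h2⟩
    exact ⟨⟨t, h2.trans w.2⟩, ⟨h1, h2⟩, rfl⟩

theorem isoS_dual {S : Set α} {T : Set β} (h : IsoS S T) :
    IsoS (OrderDual.ofDual ⁻¹' S) (OrderDual.ofDual ⁻¹' T) := by
  obtain ⟨e⟩ := h
  refine isoS_of_rel (fun s t => (e ⟨OrderDual.ofDual s.1, s.2⟩).1 = OrderDual.ofDual t.1)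
    ?_ ?_ ?_
  · intro s
    exact ⟨⟨OrderDual.toDual (e ⟨OrderDual.ofDual s.1, s.2⟩).1,
      (e ⟨OrderDual.ofDual s.1, s.2⟩).2⟩, rfl⟩
  · intro t
    refine ⟨⟨OrderDual.toDual (e.symm ⟨OrderDual.ofDual t.1, t.2⟩).1,
      (e.symm ⟨OrderDual.ofDual t.1, t.2⟩).2⟩, ?_⟩
    simp
  · intro s s' t t' h1 h2
    change OrderDual.ofDual s'.1 < OrderDual.ofDual s.1 ↔
      OrderDual.ofDual t'.1 < OrderDual.ofDual t.1
    rw [← h1, ← h2, Subtype.coe_lt_coe, e.lt_iff_lt]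
    rfl

theorem isoS_undual {S : Set α} {T : Set β}
    (h : IsoS (OrderDual.ofDual ⁻¹' S) (OrderDual.ofDual ⁻¹' T)) : IsoS S T := by
  have := isoS_dual h
  exact this

theorem dual_Ioo (a b : α) :
    (OrderDual.ofDual ⁻¹' Ioo a b : Set αᵒᵈ) = Ioo (OrderDual.toDual b) (OrderDual.toDual a) := by
  ext t
  exact and_comm

theorem dual_Ioi (a : α) :
    (OrderDual.ofDual ⁻¹' Ioi a : Set αᵒᵈ) = Iio (OrderDual.toDual a) := rfl

/-- `z` is bad. -/
def Bad (z : α) : Prop :=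
  ¬ ∃ x < z, ∀ u < z, ∃ u', x < u' ∧ u' < z ∧ IsoS (Ioo u z) (Ioo u' z)

theorem Ioo_split {u z' z : α} (h1 : u < z') (h2 : z' < z) :
    Ioo u z = Ioo u z' ∪ {z'} ∪ Ioo z' z := by
  ext t
  simp only [mem_Ioo, mem_union, mem_singleton_iff]
  constructor
  · rintro ⟨h3, h4⟩
    rcases lt_trichotomy t z' with h | h | h
    · exact Or.inl (Or.inl ⟨h3, h⟩)
    · exact Or.inl (Or.inr h)
    · exact Or.inr ⟨h, h4⟩
  · rintro ((⟨h3, h4⟩ | rfl) | ⟨h3, h4⟩)
    · exact ⟨h3, h4.trans h2⟩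
    · exact ⟨h1, h2⟩
    · exact ⟨h1.trans h3, h4⟩

theorem Ioi_split {u z' : α} (h1 : u < z') : Ioi u = Ioo u z' ∪ {z'} ∪ Ioi z' := by
  ext t
  simp only [mem_Ioo, mem_union, mem_singleton_iff, mem_Ioi]
  constructor
  · intro h3
    rcases lt_trichotomy t z' with h | h | h
    · exact Or.inl (Or.inl ⟨h3, h⟩)
    · exact Or.inl (Or.inr h)
    · exact Or.inr h
  · rintro ((⟨h3, h4⟩ | rfl) | h3)
    · exact h3
    · exact h1
    · exact h1.trans h3

theorem isoS_Ioo_glue {u z' z : α} {v w' w : β} (h1 : u < z') (h2 : z' < z) (h3 : v < w')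
    (h4 : w' < w) (h5 : IsoS (Ioo u z') (Ioo v w')) (h6 : IsoS (Ioo z' z) (Ioo w' w)) :
    IsoS (Ioo u z) (Ioo v w) := by
  rw [Ioo_split h1 h2, Ioo_split h3 h4]
  exact glue_pt (fun a ha => ha.2) (fun a ha => ha.1) (fun a ha => ha.2) (fun a ha => ha.1) h5 h6

theorem Bad.mono {z z' : α} (h : z' < z) (hz : Bad z) : Bad z' := by
  rintro ⟨x, hx, h1⟩
  refine hz ⟨x, hx.trans h, fun u hu => ?_⟩
  rcases lt_or_ge u z' with h2 | h2
  · obtain ⟨u', h3, h4, h5⟩ := h1 u h2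
    exact ⟨u', h3, h4.trans h, isoS_Ioo_glue h2 h h4 h h5 (IsoS.refl _)⟩
  · exact ⟨u, hx.trans_le h2, hu, IsoS.refl _⟩

/-- `F` is a final segment of `(x, q)` -/
structure FS (F : Set β) (x q : β) : Prop where
  sub : F ⊆ Ioo x q
  up : ∀ a ∈ F, ∀ b, a ≤ b → b < q → b ∈ F

/-- `J` is an initial segment of `(q, y)` -/
structure IS (J : Set β) (q y : β) : Prop where
  sub : J ⊆ Ioo q y
  dn : ∀ a ∈ J, ∀ b, b ≤ a → q < b → b ∈ J

theorem fs_of_upper {x q : β} (T : Set (Ioo x q)) (hT : IsUpperSet T) :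
    FS (Subtype.val '' T) x q := by
  refine ⟨?_, ?_⟩
  · rintro _ ⟨a, -, rfl⟩
    exact a.2
  · rintro _ ⟨a, ha, rfl⟩ b hab hbq
    exact ⟨⟨b, a.2.1.trans_le hab, hbq⟩, hT (show a ≤ ⟨b, _⟩ from hab) ha, rfl⟩

theorem bad_final [Countable α] {z : α} (hz : Bad z) {x z' : β}
    (h : ∀ u < z, ∃ u', x < u' ∧ u' < z' ∧ IsoS (Ioo u z) (Ioo u' z')) :
    ∃ F : Set β, FS F x z' ∧ IsoS (Iio z) F := by
  obtain ⟨T, hT, ⟨e⟩⟩ := t_lemA (Iio z) (Ioo x z') (by
      intro x₁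
      by_contra hcon
      push Not at hcon
      refine hz ⟨x₁.1, x₁.2, fun u hu => ?_⟩
      obtain ⟨u', h1, h2⟩ := hcon ⟨u, hu⟩
      refine ⟨u'.1, h1, u'.2, ?_⟩
      have h3 := isoS_trans (isoS_trans (isoS_symm (isoS_val (Ioi (⟨u, hu⟩ : Iio z)))) h2)
        (isoS_val _)
      rwa [val_Ioi_Iio, val_Ioi_Iio] at h3) (by
      intro u
      obtain ⟨u', h1, h2, h3⟩ := h u.1 u.2
      refine ⟨⟨u', h1, h2⟩, ?_⟩
      have h4 := isoS_val (Ioi u)
      have h5 := isoS_val (Ioi (⟨u', h1, h2⟩ : Ioo x z'))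
      rw [val_Ioi_Iio] at h4
      rw [val_Ioi_Ioo] at h5
      exact isoS_trans (isoS_trans h4 h3) (isoS_symm h5))
  refine ⟨Subtype.val '' T, fs_of_upper T hT, ?_⟩
  have h1 : IsoS (Iio z) T := ⟨e⟩
  exact isoS_trans h1 (isoS_val T)

/-- left-good points -/
def LG (z : α) : Prop := (∃ m : α, ∀ a, m ≤ a) ∨ Bad z

theorem LG.mono {z z' : α} (h : z' < z) (hz : LG z) : LG z' := hz.imp id (Bad.mono h)

theorem lg_final [Countable α] {z : α} (hz : LG z) {x z' : β}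
    (h : ∀ u < z, ∃ u', x < u' ∧ u' < z' ∧ IsoS (Ioo u z) (Ioo u' z')) :
    ∃ F : Set β, FS F x z' ∧ IsoS (Iio z) F := by
  rcases hz with ⟨m, hm⟩ | hz
  · rcases (hm z).eq_or_lt with rfl | hmz
    · refine ⟨∅, ⟨empty_subset _, fun a ha => absurd ha (notMem_empty _)⟩, ?_⟩
      have : Iio m = ∅ := by
        refine eq_empty_of_forall_notMem fun a ha => ?_
        exact absurd (hm a) (not_le.2 ha)
      rw [this]
      exact isoS_empty
    · obtain ⟨u', h1, h2, h3⟩ := h m hmz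
      refine ⟨Ico u' z', ⟨fun a ha => ⟨h1.trans_le ha.1, ha.2⟩,
        fun a ha b hab hb => ⟨ha.1.trans hab, hb⟩⟩, ?_⟩
      have : Iio z = Ico m z := by
        ext t
        simp [mem_Ico, hm t]
      rw [this]
      exact isoS_Ico hmz h2 h3
  · exact bad_final hz h

theorem free_final [Countable α] (h : ∀ z : α, ¬ LG z) (z : α) :
    ∃ x < z, ∃ F : Set α, FS F x z ∧ IsoS (Iio z) F := by
  have hmin : ∀ m : α, ∃ a, a < m := by
    intro m
    by_contra hcon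
    push Not at hcon
    exact h m (Or.inl ⟨m, hcon⟩)
  have hb : ∀ z : α, ∃ x < z, ∀ u < z, ∃ u', x < u' ∧ u' < z ∧ IsoS (Ioo u z) (Ioo u' z) := by
    intro z
    by_contra hcon
    exact h z (Or.inr hcon)
  haveI : Nonempty (Iio z) := by
    obtain ⟨a, ha⟩ := hmin z
    exact ⟨⟨a, ha⟩⟩
  obtain ⟨x, T, hT1, hT2, ⟨e⟩⟩ := t_lemC (Iio z) (by
    intro w
    obtain ⟨x, hx, h1⟩ := hb w.1
    refine ⟨⟨x, hx.trans w.2⟩, hx, fun u hu => ?_⟩
    obtain ⟨u', h2, h3, h4⟩ := h1 u.1 hu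
    refine ⟨⟨u', h3.trans w.2⟩, h2, h3, ?_⟩
    have h5 := isoS_val (Ioo u w)
    have h6 := isoS_val (Ioo (⟨u', h3.trans w.2⟩ : Iio z) w)
    rw [val_Ioo_Iio] at h5 h6
    exact isoS_trans (isoS_trans h5 h4) (isoS_symm h6))
  refine ⟨x.1, x.2, Subtype.val '' T, ⟨?_, ?_⟩, ?_⟩
  · rintro _ ⟨a, ha, rfl⟩
    exact ⟨hT1 ha, a.2⟩
  · rintro _ ⟨a, ha, rfl⟩ b hab hbq
    exact ⟨⟨b, hbq⟩, hT2 (show a ≤ ⟨b, _⟩ from hab) ha, rfl⟩
  · have h1 : IsoS (Iio z) T := ⟨e⟩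
    exact isoS_trans h1 (isoS_val T)

/-- right-good points -/
def RG (w : α) : Prop := LG (OrderDual.toDual w)

theorem RG.mono {w w' : α} (h : w < w') (hw : RG w) : RG w' :=
  LG.mono (z := OrderDual.toDual w) (z' := OrderDual.toDual w') h hw

theorem is_of_fs {F : Set βᵒᵈ} {q y : β} (h : FS F (OrderDual.toDual y) (OrderDual.toDual q)) :
    IS (OrderDual.toDual ⁻¹' F) q y where
  sub := fun a ha => ⟨(h.sub ha).2, (h.sub ha).1⟩
  dn := fun a ha b hb hq => h.up _ ha _ hb hq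

theorem rg_final [Countable α] {w : α} (hw : RG w) {w' y : β}
    (h : ∀ v, w < v → ∃ v', w' < v' ∧ v' < y ∧ IsoS (Ioo w v) (Ioo w' v')) :
    ∃ J : Set β, IS J w' y ∧ IsoS (Ioi w) J := by
  haveI : Countable αᵒᵈ := ‹Countable α›
  obtain ⟨F, h1, h2⟩ := lg_final (α := αᵒᵈ) (β := βᵒᵈ) hw (x := OrderDual.toDual y)
    (z' := OrderDual.toDual w') (by
      intro u hu
      obtain ⟨v', h1, h2, h3⟩ := h (OrderDual.ofDual u) hu
      refine ⟨OrderDual.toDual v', h2, h1, ?_⟩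
      have h4 := isoS_dual h3
      rw [dual_Ioo, dual_Ioo] at h4
      exact h4)
  exact ⟨_, is_of_fs h1, isoS_undual h2⟩

theorem free_initial [Countable α] (h : ∀ z : α, ¬ RG z) (z : α) :
    ∃ y, z < y ∧ ∃ J : Set α, IS J z y ∧ IsoS (Ioi z) J := by
  haveI : Countable αᵒᵈ := ‹Countable α›
  obtain ⟨x, hx, F, h1, h2⟩ := free_final (α := αᵒᵈ) h (OrderDual.toDual z)
  exact ⟨OrderDual.ofDual x, hx, _, is_of_fs h1, isoS_undual h2⟩

theorem univ_split (z : α) : (univ : Set α) = Iio z ∪ {z} ∪ Ioi z := by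
  ext t
  simp only [mem_univ, mem_union, mem_Iio, mem_singleton_iff, mem_Ioi, true_iff]
  rcases lt_trichotomy t z with h | h | h
  · exact Or.inl (Or.inl h)
  · exact Or.inl (Or.inr h)
  · exact Or.inr h

theorem assemble {z q x y : α} (hxq : x < q) (hqy : q < y) {F J : Set α} (hF : FS F x q)
    (hJ : IS J q y) (h1 : IsoS (Iio z) F) (h2 : IsoS (Ioi z) J) : BddSA α := by
  refine ⟨x, y, F ∪ {q} ∪ J, ?_, ⟨?_⟩, univ_iso ?_⟩
  · rintro a ((ha | ha) | ha)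
    · exact ⟨(hF.sub ha).1, (hF.sub ha).2.trans hqy⟩
    · rw [mem_singleton_iff.1 ha]
      exact ⟨hxq, hqy⟩
    · exact ⟨hxq.trans (hJ.sub ha).1, (hJ.sub ha).2⟩
  · intro a ha c hc b hb
    rcases lt_trichotomy b q with h | h | h
    · left
      left
      rcases ha with (ha | ha) | ha
      · exact hF.up a ha b hb.1 h
      · rw [mem_singleton_iff.1 ha] at hb
        exact absurd h (not_lt.2 hb.1)
      · exact absurd (hb.1.trans_lt h) (not_lt.2 (hJ.sub ha).1.le)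
    · left
      right
      exact h
    · right
      rcases hc with (hc | hc) | hc
      · exact absurd (h.trans_le hb.2) (not_lt.2 (hF.sub hc).2.le)
      · rw [mem_singleton_iff.1 hc] at hb
        exact absurd h (not_lt.2 hb.2)
      · exact hJ.dn c hc b hb.2 h
  · rw [univ_split z]
    exact glue_pt (fun a ha => ha) (fun a ha => ha) (fun a ha => (hF.sub ha).2)
      (fun a ha => (hJ.sub ha).1) h1 h2

end

theorem t_starL' : StStarL := by
  intro α _ _ _ hs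
  by_cases hmin : ∃ m : α, ∀ a, m ≤ a
  · obtain ⟨m, hm⟩ := hmin
    obtain ⟨x, y, h1, h2, -⟩ := hs m
    refine ⟨x, Ici y, fun a ha => h1.trans_le ha, isUpperSet_Ici y, univ_iso ?_⟩
    have : (univ : Set α) = Ici m := by
      ext a
      simp [hm a]
    rw [this]
    exact isoS_Ici h2
  by_cases hbad : ∃ z : α, Bad z
  · obtain ⟨z, hz⟩ := hbad
    obtain ⟨x, y, h1, h2, h3⟩ := hs z
    obtain ⟨F, hF, hF'⟩ := bad_final hz h3
    refine ⟨x, F ∪ {y} ∪ Ioi y, ?_, ?_, univ_iso ?_⟩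
    · rintro a ((ha | ha) | ha)
      · exact (hF.sub ha).1
      · rw [mem_singleton_iff.1 ha]
        exact h1
      · exact h1.trans ha
    · rintro a b hab ((ha | ha) | ha)
      · rcases lt_trichotomy b y with h | h | h
        · exact Or.inl (Or.inl (hF.up a ha b hab h))
        · exact Or.inl (Or.inr h)
        · exact Or.inr h
      · rw [mem_singleton_iff.1 ha] at hab
        rcases hab.eq_or_lt with h | h
        · exact Or.inl (Or.inr h.symm)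
        · exact Or.inr h
      · exact Or.inr (lt_of_lt_of_le ha hab)
    · rw [univ_split z]
      exact glue_pt (fun a ha => ha) (fun a ha => ha) (fun a ha => (hF.sub ha).2)
        (fun a ha => ha) hF' h2
  · refine t_lemC α fun z => ?_
    by_contra hcon
    exact hbad ⟨z, hcon⟩

theorem t_starD' : StStarD := by
  intro α _ _ _ hs
  by_cases hL : ∃ z : α, LG z
  · by_cases hR : ∃ w : α, RG w
    · obtain ⟨z, w, hzw, hz, hw⟩ : ∃ z w : α, z < w ∧ LG z ∧ RG w := by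
        obtain ⟨z0, hz0⟩ := hL
        obtain ⟨w0, hw0⟩ := hR
        rcases lt_trichotomy z0 w0 with h | h | h
        · exact ⟨z0, w0, h, hz0, hw0⟩
        · subst h
          obtain ⟨q, hq⟩ := exists_ne z0
          rcases lt_or_gt_of_ne hq with h | h
          · exact ⟨q, z0, h, hz0.mono h, hw0⟩
          · exact ⟨z0, q, h, hz0, hw0.mono h⟩
        · exact ⟨w0, z0, h, hz0.mono h, hw0.mono h⟩
      obtain ⟨x, z', w', y, h1, h2, h3, h4, h5, h6⟩ := hs z w hzw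
      obtain ⟨F, hF, hF'⟩ := lg_final hz h5
      obtain ⟨J, hJ, hJ'⟩ := rg_final hw h6
      refine assemble h1 (h2.trans h3) hF (J := Ioo z' w' ∪ {w'} ∪ J) ⟨?_, ?_⟩ hF' ?_
      · rintro a ((ha | ha) | ha)
        · exact ⟨ha.1, ha.2.trans h3⟩
        · rw [mem_singleton_iff.1 ha]
          exact ⟨h2, h3⟩
        · exact ⟨h2.trans (hJ.sub ha).1, (hJ.sub ha).2⟩
      · rintro a ha b hb hq
        rcases lt_trichotomy b w' with h | h | h
        · exact Or.inl (Or.inl ⟨hq, h⟩)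
        · exact Or.inl (Or.inr h)
        · right
          rcases ha with (ha | ha) | ha
          · exact absurd (h.trans_le hb) (not_lt.2 ha.2.le)
          · rw [mem_singleton_iff.1 ha] at hb
            exact absurd h (not_lt.2 hb)
          · exact hJ.dn a ha b hb h
      · rw [Ioi_split hzw]
        exact glue_pt (fun a ha => ha.2) (fun a ha => ha) (fun a ha => ha.2)
          (fun a ha => (hJ.sub ha).1) h4 hJ'
    · obtain ⟨z, hz⟩ := hL
      obtain ⟨y0, hy0, J, hJ, hJ'⟩ := free_initial (fun w hw => hR ⟨w, hw⟩) z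
      obtain ⟨x, z', w', y, h1, h2, h3, ⟨e⟩, h5, -⟩ := hs z y0 hy0
      obtain ⟨F, hF, hF'⟩ := lg_final hz h5
      let J' : Set α := {t | ∃ h : t ∈ Ioo z' w', (e.symm ⟨t, h⟩).1 ∈ J}
      have hJJ : IsoS J J' := by
        refine isoS_restrict e J J' hJ.sub (fun t ht => ht.1) ?_
        intro s
        constructor
        · intro hs'
          exact ⟨(e s).2, by simpa using hs'⟩
        · rintro ⟨h, h'⟩
          simpa using h'
      refine assemble h1 h2 hF (J := J') ⟨fun t ht => ht.1, ?_⟩ hF' (isoS_trans hJ' hJJ)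
      rintro a ⟨ha, ha'⟩ b hb hq
      refine ⟨⟨hq, hb.trans_lt ha.2⟩, hJ.dn _ ha' _ ?_ (e.symm _).2.1⟩
      exact e.symm.monotone (show (⟨b, _⟩ : Ioo z' w') ≤ ⟨a, ha⟩ from hb)
  · have hL' : ∀ z : α, ¬ LG z := fun z hz => hL ⟨z, hz⟩
    by_cases hR : ∃ w : α, RG w
    · obtain ⟨w, hw⟩ := hR
      obtain ⟨x0, hx0, F, hF, hF'⟩ := free_final hL' w
      obtain ⟨x, z', w', y, h1, h2, h3, ⟨e⟩, -, h6⟩ := hs x0 w hx0
      obtain ⟨J, hJ, hJ'⟩ := rg_final hw h6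
      let F' : Set α := {t | ∃ h : t ∈ Ioo z' w', (e.symm ⟨t, h⟩).1 ∈ F}
      have hFF : IsoS F F' := by
        refine isoS_restrict e F F' hF.sub (fun t ht => ht.1) ?_
        intro s
        constructor
        · intro hs'
          exact ⟨(e s).2, by simpa using hs'⟩
        · rintro ⟨h, h'⟩
          simpa using h'
      refine assemble h2 h3 (F := F') ⟨fun t ht => ht.1, ?_⟩ hJ (isoS_trans hF' hFF) hJ'
      rintro a ⟨ha, ha'⟩ b hb hq
      refine ⟨⟨ha.1.trans_le hb, hq⟩, hF.up _ ha' _ ?_ (e.symm _).2.2⟩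
      exact e.symm.monotone (show (⟨a, ha⟩ : Ioo z' w') ≤ ⟨b, _⟩ from hb)
    · obtain ⟨z⟩ : Nonempty α := inferInstance
      obtain ⟨x, hx, F, hF, hF'⟩ := free_final hL' z
      obtain ⟨y, hy, J, hJ, hJ'⟩ := free_initial (fun w hw => hR ⟨w, hw⟩) z
      exact assemble hx hy hF hJ hF' hJ'

theorem t_starL (_ : StLemA) (_ : StLemC) : StStarL := t_starL'

theorem t_starD (_ : StLemA) (_ : StLemC) : StStarD := t_starD'

end Pool.Agent.W928.CB
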