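import Pool.Agent.W928.CB.EF

/-!
# CB-T: bisimilar interval states
-/

namespace Pool.Agent.W928.CB
open Set Pool.Agent.W919.CB

theorem ty_lt {L : LO} {a b : Ty L} : a < b ↔ L.lt a b := Iff.rfl

theorem mem_iv {L : LO} {X : Iv} {p : Ty L} : p ∈ L.iv X ↔ L.mem X p := Iff.rfl

theorem lo_lt_trans {L : LO} {a b c : ℕ} (h1 : L.lt a b) (h2 : L.lt b c) : L.lt a c :=
  lt_trans (α := Ty L) h1 h2

theorem iv_Iio {L : LO} {X : Iv} {a : ℕ} (ha : L.mem X a) :
    L.iv X ∩ Iio (show Ty L from a) = L.iv (X.1, some a) := by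
  ext p
  constructor
  · rintro ⟨h1, h2⟩
    refine ⟨h1.1, fun b hb => ?_⟩
    have : a = b := by simpa using hb
    exact this ▸ h2
  · rintro ⟨h1, h2⟩
    have h3 : L.lt p a := h2 a rfl
    exact ⟨⟨h1, fun b hb => lo_lt_trans h3 (ha.2 b hb)⟩, h3⟩

theorem iv_Ioi {L : LO} {X : Iv} {a : ℕ} (ha : L.mem X a) :
    L.iv X ∩ Ioi (show Ty L from a) = L.iv (some a, X.2) := by
  ext p
  constructor
  · rintro ⟨h1, h2⟩
    refine ⟨fun b hb => ?_, h1.2⟩
    have : a = b := by simpa using hb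
    exact this ▸ h2
  · rintro ⟨h1, h2⟩
    have h3 : L.lt a p := h1 a rfl
    exact ⟨⟨fun b hb => lo_lt_trans (ha.1 b hb) h3, h2⟩, h3⟩

theorem ch_T {L : LO} {s : ℕ} {X : Iv} {y : St} (h : ch L (.T s X) y) :
    y = .dot ∨ ∃ p, y = .P X p ∧ L.mem X p := by
  cases y <;> simp_all [ch]

theorem ch_P {L : LO} {X : Iv} {p : ℕ} {y : St} (h : ch L (.P X p) y) :
    y = .dot ∨ y = .T 1 (X.1, some p) ∨ y = .T 2 (some p, X.2) := by
  cases y <;> simp_all [ch]
  
theorem ch_dot {L : LO} {y : St} (h : ch L .dot y) : y = .dot := by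
  cases y <;> simp_all [ch]

theorem bis_EF {L L' : LO} {R : St → St → Prop} (hR : IsBis lab lab (ch L) (ch L') R)
    (γ : Ordinal.{0}) : ∀ (s : ℕ) (X Y : Iv), R (.T s X) (.T s Y) → EF γ (L.iv X) (L'.iv Y) := by
  have half : ∀ (X Y : Iv) (p q : ℕ), R (.P X p) (.P Y q) →
      R (.T 1 (X.1, some p)) (.T 1 (Y.1, some q)) ∧ R (.T 2 (some p, X.2)) (.T 2 (some q, Y.2)) := by
    intro X Y p q h
    obtain ⟨-, h1, -⟩ := hR _ _ h
    constructor
    · obtain ⟨b, hb, hRb⟩ := h1 (.T 1 (X.1, some p)) (by simp [ch])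
      have hl := (hR _ _ hRb).1
      rcases ch_P hb with rfl | rfl | rfl
      · simp [lab] at hl
      · exact hRb
      · simp [lab] at hl
    · obtain ⟨b, hb, hRb⟩ := h1 (.T 2 (some p, X.2)) (by simp [ch])
      have hl := (hR _ _ hRb).1
      rcases ch_P hb with rfl | rfl | rfl
      · simp [lab] at hl
      · simp [lab] at hl
      · exact hRb
  induction γ using WellFoundedLT.induction with
  | ind γ ih =>
    intro s X Y h
    obtain ⟨-, h1, h2⟩ := hR _ _ h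
    rw [EF]
    intro δ hδ
    refine ⟨fun a ha => ?_, fun b hb => ?_⟩
    · obtain ⟨b, hb, hRb⟩ := h1 (.P X a) (by simpa [ch] using mem_iv.1 ha)
      have hl := (hR _ _ hRb).1
      rcases ch_T hb with rfl | ⟨q, rfl, hq⟩
      · simp [lab] at hl
      · obtain ⟨h3, h4⟩ := half _ _ _ _ hRb
        refine ⟨q, hq, ?_, ?_⟩
        · have := ih δ hδ _ _ _ h3
          rw [← iv_Iio ha, ← iv_Iio hq] at this
          exact this
        · have := ih δ hδ _ _ _ h4
          rw [← iv_Ioi ha, ← iv_Ioi hq] at this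
          exact this
    · obtain ⟨a, ha, hRa⟩ := h2 (.P Y b) (by simpa [ch] using mem_iv.1 hb)
      have hl := (hR _ _ hRa).1
      rcases ch_T ha with rfl | ⟨q, rfl, hq⟩
      · simp [lab] at hl
      · obtain ⟨h3, h4⟩ := half _ _ _ _ hRa
        refine ⟨q, hq, ?_, ?_⟩
        · have := ih δ hδ _ _ _ h3
          rw [← iv_Iio hb, ← iv_Iio hq] at this
          exact this
        · have := ih δ hδ _ _ _ h4
          rw [← iv_Ioi hb, ← iv_Ioi hq] at this
          exact this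

/-- The canonical bisimulation. -/
inductive CR (L L' : LO) : St → St → Prop
  | dot : CR L L' .dot .dot
  | T (s : ℕ) (X Y : Iv) (h : IsoS (L.iv X) (L'.iv Y)) : CR L L' (.T s X) (.T s Y)
  | P (X Y : Iv) (p q : ℕ) (hp : L.mem X p) (hq : L'.mem Y q)
      (h1 : IsoS (L.iv (X.1, some p)) (L'.iv (Y.1, some q)))
      (h2 : IsoS (L.iv (some p, X.2)) (L'.iv (some q, Y.2))) : CR L L' (.P X p) (.P Y q)

theorem CR.isBis (L L' : LO) : IsBis lab lab (ch L) (ch L') (CR L L') := by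
  intro a b h
  cases h with
  | dot =>
    refine ⟨rfl, fun a' h => ?_, fun b' h => ?_⟩
    · rw [ch_dot h]
      exact ⟨.dot, by simp [ch], .dot⟩
    · rw [ch_dot h]
      exact ⟨.dot, by simp [ch], .dot⟩
  | T s X Y h =>
    obtain ⟨e⟩ := h
    refine ⟨rfl, fun a' h => ?_, fun b' h => ?_⟩
    · rcases ch_T h with rfl | ⟨p, rfl, hp⟩
      · exact ⟨.dot, by simp [ch], .dot⟩
      · have hq : L'.mem Y (e ⟨p, hp⟩).1 := (e ⟨p, hp⟩).2
        refine ⟨.P Y (e ⟨p, hp⟩).1, ?_, .P _ _ _ _ hp hq ?_ ?_⟩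
        · simpa [ch] using hq
        · rw [← iv_Iio hp, ← iv_Iio hq]
          exact isoS_Iio e ⟨p, hp⟩
        · rw [← iv_Ioi hp, ← iv_Ioi hq]
          exact isoS_Ioi e ⟨p, hp⟩
    · rcases ch_T h with rfl | ⟨p, rfl, hp⟩
      · exact ⟨.dot, by simp [ch], .dot⟩
      · have hq : L.mem X (e.symm ⟨p, hp⟩).1 := (e.symm ⟨p, hp⟩).2
        refine ⟨.P X (e.symm ⟨p, hp⟩).1, ?_, .P _ _ _ _ hq hp ?_ ?_⟩
        · simpa [ch] using hq
        · rw [← iv_Iio hp, ← iv_Iio hq]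
          have := isoS_Iio e (e.symm ⟨p, hp⟩)
          simpa using this
        · rw [← iv_Ioi hp, ← iv_Ioi hq]
          have := isoS_Ioi e (e.symm ⟨p, hp⟩)
          simpa using this
  | P X Y p q hp hq h1 h2 =>
    refine ⟨rfl, fun a' h => ?_, fun b' h => ?_⟩
    · rcases ch_P h with rfl | rfl | rfl
      · exact ⟨.dot, by simp [ch], .dot⟩
      · exact ⟨.T 1 (Y.1, some q), by simp [ch], .T _ _ _ h1⟩
      · exact ⟨.T 2 (some q, Y.2), by simp [ch], .T _ _ _ h2⟩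
    · rcases ch_P h with rfl | rfl | rfl
      · exact ⟨.dot, by simp [ch], .dot⟩
      · exact ⟨.T 1 (X.1, some p), by simp [ch], .T _ _ _ h1⟩
      · exact ⟨.T 2 (some p, X.2), by simp [ch], .T _ _ _ h2⟩

theorem t_T' : StT := by
  intro L L' s X Y
  constructor
  · rintro ⟨R, hR, h⟩
    exact t_efcount _ _ _ _ fun γ => bis_EF hR γ s X Y h
  · intro h
    exact ⟨CR L L', CR.isBis L L', .T s X Y h⟩

theorem t_T (_ : StEFinv) (_ : StEFiso) (_ : StEFcount) : StT := t_T'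

end Pool.Agent.W928.CB
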