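import Pool.Agent.W919.CB.Sys

/-!
# CB-EF: back-and-forth ranks
-/

namespace Pool.Agent.W928.CB
open Set Pool.Agent.W919.CB

section Basic
variable {α α' β β' : Type} [LinearOrder α] [LinearOrder α'] [LinearOrder β] [LinearOrder β']

/-- An order isomorphism from a relation which is total in both directions. -/
theorem isoS_of_rel {S : Set α} {T : Set β} (R : S → T → Prop)
    (h1 : ∀ s, ∃ t, R s t) (h2 : ∀ t, ∃ s, R s t)
    (h3 : ∀ s s' t t', R s t → R s' t' → (s < s' ↔ t < t')) : IsoS S T := by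
  choose f hf using h1
  choose g hg using h2
  have hgf : ∀ s, g (f s) = s := by
    intro s
    have a := h3 _ _ _ _ (hf s) (hg (f s))
    have b := h3 _ _ _ _ (hg (f s)) (hf s)
    rcases lt_trichotomy (g (f s)) s with h | h | h
    · exact absurd (b.1 h) (lt_irrefl _)
    · exact h
    · exact absurd (a.1 h) (lt_irrefl _)
  have hfg : ∀ t, f (g t) = t := by
    intro t
    have a := h3 _ _ _ _ (hf (g t)) (hg t)
    have b := h3 _ _ _ _ (hg t) (hf (g t))
    rcases lt_trichotomy (f (g t)) t with h | h | h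
    · exact absurd (a.2 h) (lt_irrefl _)
    · exact h
    · exact absurd (b.2 h) (lt_irrefl _)
  have hlt : ∀ s s', s < s' ↔ f s < f s' := fun s s' => h3 _ _ _ _ (hf s) (hf s')
  exact ⟨{ toFun := f, invFun := g, left_inv := hgf, right_inv := hfg,
           map_rel_iff' := by
            intro a b
            rw [← not_lt, ← not_lt]
            exact not_congr (hlt b a).symm }⟩

theorem IsoS.symm {S : Set α} {T : Set β} (h : IsoS S T) : IsoS T S := h.map OrderIso.symm

theorem IsoS.refl (S : Set α) : IsoS S S := ⟨OrderIso.refl _⟩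

theorem IsoS.trans {S : Set α} {T : Set β} {U : Set α'} (h : IsoS S T) (h' : IsoS T U) :
    IsoS S U := by
  obtain ⟨e⟩ := h
  obtain ⟨e'⟩ := h'
  exact ⟨e.trans e'⟩

/-- An order isomorphism restricts to corresponding subsets. -/
theorem isoS_restrict {S : Set α} {T : Set β} (e : S ≃o T) (S₁ : Set α) (T₁ : Set β)
    (hS : S₁ ⊆ S) (hT : T₁ ⊆ T) (h : ∀ s : S, s.1 ∈ S₁ ↔ (e s).1 ∈ T₁) : IsoS S₁ T₁ := by
  refine isoS_of_rel (fun s t => (e ⟨s.1, hS s.2⟩).1 = t.1) ?_ ?_ ?_
  · intro s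
    exact ⟨⟨(e ⟨s.1, hS s.2⟩).1, (h ⟨s.1, hS s.2⟩).1 s.2⟩, rfl⟩
  · intro t
    refine ⟨⟨(e.symm ⟨t.1, hT t.2⟩).1, ?_⟩, ?_⟩
    · rw [h]
      simpa using t.2
    · simp
  · intro s s' t t' h1 h2
    have : s < s' ↔ e ⟨s.1, hS s.2⟩ < e ⟨s'.1, hS s'.2⟩ := by
      rw [e.lt_iff_lt]
      rfl
    rw [this]
    change (e ⟨s.1, hS s.2⟩).1 < (e ⟨s'.1, hS s'.2⟩).1 ↔ t.1 < t'.1
    rw [h1, h2]

theorem isoS_Iio {S : Set α} {T : Set β} (e : S ≃o T) (a : S) :
    IsoS (S ∩ Iio a.1) (T ∩ Iio (e a).1) := by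
  refine isoS_restrict e _ _ inter_subset_left inter_subset_left ?_
  intro s
  simp only [mem_inter_iff, mem_Iio, Subtype.coe_prop, true_and, Subtype.coe_lt_coe]
  exact e.lt_iff_lt.symm

theorem isoS_Ioi {S : Set α} {T : Set β} (e : S ≃o T) (a : S) :
    IsoS (S ∩ Ioi a.1) (T ∩ Ioi (e a).1) := by
  refine isoS_restrict e _ _ inter_subset_left inter_subset_left ?_
  intro s
  simp only [mem_inter_iff, mem_Ioi, Subtype.coe_prop, true_and, Subtype.coe_lt_coe]
  exact e.lt_iff_lt.symm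

theorem EF.anti {γ γ' : Ordinal.{0}} {S : Set α} {T : Set β} (hγ : γ' ≤ γ) (h : EF γ S T) :
    EF γ' S T := by
  rw [EF] at h ⊢
  exact fun δ hδ => h δ (hδ.trans_le hγ)

theorem EF.symm {γ : Ordinal.{0}} : ∀ {S : Set α} {T : Set β}, EF γ S T → EF γ T S := by
  induction γ using WellFoundedLT.induction with
  | ind γ ih =>
    intro S T h
    rw [EF] at h ⊢
    intro δ hδ
    obtain ⟨h1, h2⟩ := h δ hδ
    refine ⟨fun b hb => ?_, fun a ha => ?_⟩
    · obtain ⟨a, ha, h3, h4⟩ := h2 b hb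
      exact ⟨a, ha, ih δ hδ h3, ih δ hδ h4⟩
    · obtain ⟨b, hb, h3, h4⟩ := h1 a ha
      exact ⟨b, hb, ih δ hδ h3, ih δ hδ h4⟩

end Basic

theorem t_efinv : StEFinv := by
  intro α α' β β' _ _ _ _ γ
  induction γ using WellFoundedLT.induction with
  | ind γ ih =>
    intro S S' T T' hS hT h
    rw [EF] at h ⊢
    intro δ hδ
    obtain ⟨h1, h2⟩ := h δ hδ
    obtain ⟨e⟩ := hS
    obtain ⟨f⟩ := hT
    refine ⟨fun a ha => ?_, fun b hb => ?_⟩
    · obtain ⟨b, hb, h3, h4⟩ := h1 (e.symm ⟨a, ha⟩).1 (e.symm ⟨a, ha⟩).2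
      refine ⟨(f ⟨b, hb⟩).1, (f ⟨b, hb⟩).2, ?_, ?_⟩
      · refine ih δ hδ _ _ _ _ ?_ (isoS_Iio f ⟨b, hb⟩) h3
        have := isoS_Iio e (e.symm ⟨a, ha⟩)
        simpa using this
      · refine ih δ hδ _ _ _ _ ?_ (isoS_Ioi f ⟨b, hb⟩) h4
        have := isoS_Ioi e (e.symm ⟨a, ha⟩)
        simpa using this
    · obtain ⟨a, ha, h3, h4⟩ := h2 (f.symm ⟨b, hb⟩).1 (f.symm ⟨b, hb⟩).2
      refine ⟨(e ⟨a, ha⟩).1, (e ⟨a, ha⟩).2, ?_, ?_⟩
      · refine ih δ hδ _ _ _ _ (isoS_Iio e ⟨a, ha⟩) ?_ h3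
        have := isoS_Iio f (f.symm ⟨b, hb⟩)
        simpa using this
      · refine ih δ hδ _ _ _ _ (isoS_Ioi e ⟨a, ha⟩) ?_ h4
        have := isoS_Ioi f (f.symm ⟨b, hb⟩)
        simpa using this

theorem t_efiso : StEFiso := by
  intro α β _ _ γ
  induction γ using WellFoundedLT.induction with
  | ind γ ih =>
    intro S T hS
    rw [EF]
    intro δ hδ
    obtain ⟨e⟩ := hS
    refine ⟨fun a ha => ?_, fun b hb => ?_⟩
    · exact ⟨(e ⟨a, ha⟩).1, (e ⟨a, ha⟩).2, ih δ hδ _ _ (isoS_Iio e ⟨a, ha⟩),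
        ih δ hδ _ _ (isoS_Ioi e ⟨a, ha⟩)⟩
    · refine ⟨(e.symm ⟨b, hb⟩).1, (e.symm ⟨b, hb⟩).2, ih δ hδ _ _ ?_, ih δ hδ _ _ ?_⟩
      · have := isoS_Iio e (e.symm ⟨b, hb⟩)
        simpa using this
      · have := isoS_Ioi e (e.symm ⟨b, hb⟩)
        simpa using this

/-- Pigeonhole over ordinals for antitone properties. -/
theorem ord_pigeon {ι : Type} (P : ι → Ordinal.{0} → Prop)
    (hP : ∀ i γ γ', γ' ≤ γ → P i γ → P i γ') (h : ∀ γ, ∃ i, P i γ) : ∃ i, ∀ γ, P i γ := by
  by_contra hcon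
  push Not at hcon
  choose δ hδ using hcon
  obtain ⟨i, hi⟩ := h (⨆ j, δ j)
  exact hδ i (hP i _ _ (Ordinal.le_iSup δ i) hi)

section Count
variable {α β : Type} [LinearOrder α] [LinearOrder β]

/-- equivalence of all ranks -/
def EE (S : Set α) (T : Set β) : Prop := ∀ γ, EF γ S T

theorem EE.forth {S : Set α} {T : Set β} (h : EE S T) {a : α} (ha : a ∈ S) :
    ∃ b ∈ T, EE (S ∩ Iio a) (T ∩ Iio b) ∧ EE (S ∩ Ioi a) (T ∩ Ioi b) := by
  have := ord_pigeon (ι := T)
    (fun b γ => EF γ (S ∩ Iio a) (T ∩ Iio b.1) ∧ EF γ (S ∩ Ioi a) (T ∩ Ioi b.1))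
    (fun i γ γ' hγ h => ⟨EF.anti hγ h.1, EF.anti hγ h.2⟩) ?_
  · obtain ⟨b, hb⟩ := this
    exact ⟨b.1, b.2, fun γ => (hb γ).1, fun γ => (hb γ).2⟩
  · intro γ
    have h1 := h (γ + 1)
    rw [EF] at h1
    obtain ⟨b, hb, h2⟩ := (h1 γ (lt_add_one γ)).1 a ha
    exact ⟨⟨b, hb⟩, h2⟩

theorem EE.symm {S : Set α} {T : Set β} (h : EE S T) : EE T S := fun γ => EF.symm (h γ)

theorem EE.back {S : Set α} {T : Set β} (h : EE S T) {b : β} (hb : b ∈ T) :
    ∃ a ∈ S, EE (S ∩ Iio a) (T ∩ Iio b) ∧ EE (S ∩ Ioi a) (T ∩ Ioi b) := by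
  obtain ⟨a, ha, h1, h2⟩ := h.symm.forth hb
  exact ⟨a, ha, h1.symm, h2.symm⟩

theorem EE.empty : EE (∅ : Set α) (∅ : Set β) := by
  intro γ
  rw [EF]
  intro δ _
  exact ⟨fun a ha => absurd ha (by simp), fun a ha => absurd ha (by simp)⟩

/-- the points of `S` in the cut `A` of `F` -/
def cutL (S : Set α) (F A : Finset (α × β)) : Set α :=
  {s | s ∈ S ∧ (∀ p ∈ A, p.1 < s) ∧ ∀ p ∈ F, p ∉ A → s < p.1}

def cutR (T : Set β) (F A : Finset (α × β)) : Set β :=
  {t | t ∈ T ∧ (∀ p ∈ A, p.2 < t) ∧ ∀ p ∈ F, p ∉ A → t < p.2}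

/-- good finite partial isomorphisms -/
structure PG (S : Set α) (T : Set β) (F : Finset (α × β)) : Prop where
  memS : ∀ p ∈ F, p.1 ∈ S
  memT : ∀ p ∈ F, p.2 ∈ T
  ord : ∀ p ∈ F, ∀ q ∈ F, p.1 < q.1 ↔ p.2 < q.2
  cut : ∀ A ⊆ F, EE (cutL S F A) (cutR T F A)

/-- swapping the two sides -/
def sw (F : Finset (α × β)) : Finset (β × α) := F.image Prod.swap

theorem mem_sw {F : Finset (α × β)} {p : β × α} : p ∈ sw F ↔ (p.2, p.1) ∈ F := by
  unfold sw
  rw [Finset.mem_image]
  constructor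
  · rintro ⟨q, hq, rfl⟩
    exact hq
  · intro h
    exact ⟨_, h, rfl⟩

theorem sw_sw (F : Finset (α × β)) : sw (sw F) = F := by
  ext p
  rw [mem_sw, mem_sw]

theorem cut_sw (T : Set β) (F A : Finset (α × β)) : cutL T (sw F) (sw A) = cutR T F A := by
  ext t
  unfold cutL cutR
  simp only [mem_setOf_eq, mem_sw, Prod.forall]
  constructor
  · rintro ⟨h1, h2, h3⟩
    exact ⟨h1, fun a b h => h2 b a h, fun a b h h' => h3 b a h h'⟩
  · rintro ⟨h1, h2, h3⟩
    exact ⟨h1, fun a b h => h2 b a h, fun a b h h' => h3 b a h h'⟩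

theorem cut_sw' (S : Set α) (F A : Finset (α × β)) : cutR S (sw F) (sw A) = cutL S F A := by
  rw [← cut_sw, sw_sw, sw_sw]

theorem PG.swap {S : Set α} {T : Set β} {F : Finset (α × β)} (h : PG S T F) :
    PG T S (sw F) where
  memS := fun p hp => h.memT _ (mem_sw.1 hp)
  memT := fun p hp => h.memS _ (mem_sw.1 hp)
  ord := fun p hp q hq => (h.ord _ (mem_sw.1 hp) _ (mem_sw.1 hq)).symm
  cut := by
    intro A hA
    have h1 := h.cut (sw A) (by
      intro p hp
      have := hA (mem_sw.1 hp)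
      exact mem_sw.1 this)
    have h2 : EE (cutR T F (sw A)) (cutL S F (sw A)) := h1.symm
    have e1 : cutL T (sw F) A = cutR T F (sw A) := by
      have := cut_sw T F (sw A)
      rwa [sw_sw] at this
    have e2 : cutR S (sw F) A = cutL S F (sw A) := by
      have := cut_sw' S F (sw A)
      rwa [sw_sw] at this
    rw [e1, e2]
    exact h2

theorem PG.empty {S : Set α} {T : Set β} (h : EE S T) : PG S T ∅ where
  memS := by simp
  memT := by simp
  ord := by simp
  cut := by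
    intro A hA
    have : A = ∅ := by simpa using hA
    subst this
    have h1 : cutL S (∅ : Finset (α × β)) ∅ = S := by
      ext s
      simp [cutL]
    have h2 : cutR T (∅ : Finset (α × β)) ∅ = T := by
      ext s
      simp [cutR]
    rw [h1, h2]
    exact h

theorem PG.extend {S : Set α} {T : Set β} {F : Finset (α × β)} (h : PG S T F) {x : α}
    (hx : x ∈ S) : ∃ y, ∃ F', PG S T F' ∧ F ⊆ F' ∧ (x, y) ∈ F' := by
  classical
  by_cases hex : ∃ p ∈ F, p.1 = x
  · obtain ⟨p, hp, rfl⟩ := hex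
    exact ⟨p.2, F, h, subset_rfl, hp⟩
  push Not at hex
  set A := F.filter (fun p => p.1 < x) with hA
  have hxA : x ∈ cutL S F A := by
    refine ⟨hx, fun p hp => (Finset.mem_filter.1 hp).2, fun p hp hpA => ?_⟩
    rcases lt_trichotomy p.1 x with h1 | h1 | h1
    · exact absurd (Finset.mem_filter.2 ⟨hp, h1⟩) hpA
    · exact absurd h1 (hex p hp)
    · exact h1
  obtain ⟨y, hy, h1, h2⟩ := (h.cut A (Finset.filter_subset _ _)).forth hxA
  obtain ⟨hyT, hyA, hyA'⟩ := hy
  have hlow : ∀ p ∈ F, p.1 < x → p.2 < y := fun p hp hpx =>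
    hyA p (Finset.mem_filter.2 ⟨hp, hpx⟩)
  have hupp : ∀ p ∈ F, x < p.1 → y < p.2 := fun p hp hpx =>
    hyA' p hp (fun h' => lt_asymm hpx (Finset.mem_filter.1 h').2)
  have hxy : (x, y) ∉ F := fun h' => hex _ h' rfl
  refine ⟨y, insert (x, y) F, ?_, Finset.subset_insert _ _, Finset.mem_insert_self _ _⟩
  refine ⟨?_, ?_, ?_, ?_⟩
  · intro p hp
    rcases Finset.mem_insert.1 hp with rfl | hp
    · exact hx
    · exact h.memS p hp
  · intro p hp
    rcases Finset.mem_insert.1 hp with rfl | hp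
    · exact hyT
    · exact h.memT p hp
  · intro p hp q hq
    rcases Finset.mem_insert.1 hp with rfl | hp <;> rcases Finset.mem_insert.1 hq with rfl | hq
    · simp
    · rcases lt_trichotomy q.1 x with h3 | h3 | h3
      · exact iff_of_false h3.asymm (hlow q hq h3).asymm
      · exact absurd h3 (hex q hq)
      · exact iff_of_true h3 (hupp q hq h3)
    · rcases lt_trichotomy p.1 x with h3 | h3 | h3
      · exact iff_of_true h3 (hlow p hp h3)
      · exact absurd h3 (hex p hp)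
      · exact iff_of_false h3.asymm (hupp p hp h3).asymm
    · exact h.ord p hp q hq
  · intro A' hA'
    by_cases hin : (x, y) ∈ A'
    · set B := A'.erase (x, y) with hB
      have hBF : B ⊆ F := by
        intro p hp
        rw [hB, Finset.mem_erase] at hp
        rcases Finset.mem_insert.1 (hA' hp.2) with h3 | h3
        · exact absurd h3 hp.1
        · exact h3
      have e1 : cutL S (insert (x, y) F) A' = cutL S F B ∩ Ioi x := by
        ext s
        constructor
        · rintro ⟨h3, h4, h5⟩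
          refine ⟨⟨h3, fun p hp => h4 p (Finset.mem_of_mem_erase hp), fun p hp hpB => ?_⟩,
            h4 _ hin⟩
          refine h5 p (Finset.mem_insert_of_mem hp) fun hpA => hpB ?_
          rw [hB, Finset.mem_erase]
          exact ⟨fun h6 => hxy (h6 ▸ hp), hpA⟩
        · rintro ⟨⟨h3, h4, h5⟩, h6⟩
          refine ⟨h3, fun p hp => ?_, fun p hp hpA => ?_⟩
          · by_cases hpe : p = (x, y)
            · subst hpe
              exact h6
            · exact h4 p (Finset.mem_erase.2 ⟨hpe, hp⟩)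
          · rcases Finset.mem_insert.1 hp with rfl | hp
            · exact absurd hin hpA
            · exact h5 p hp (fun h7 => hpA (Finset.mem_of_mem_erase h7))
      have e2 : cutR T (insert (x, y) F) A' = cutR T F B ∩ Ioi y := by
        ext s
        constructor
        · rintro ⟨h3, h4, h5⟩
          refine ⟨⟨h3, fun p hp => h4 p (Finset.mem_of_mem_erase hp), fun p hp hpB => ?_⟩,
            h4 _ hin⟩
          refine h5 p (Finset.mem_insert_of_mem hp) fun hpA => hpB ?_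
          rw [hB, Finset.mem_erase]
          exact ⟨fun h6 => hxy (h6 ▸ hp), hpA⟩
        · rintro ⟨⟨h3, h4, h5⟩, h6⟩
          refine ⟨h3, fun p hp => ?_, fun p hp hpA => ?_⟩
          · by_cases hpe : p = (x, y)
            · subst hpe
              exact h6
            · exact h4 p (Finset.mem_erase.2 ⟨hpe, hp⟩)
          · rcases Finset.mem_insert.1 hp with rfl | hp
            · exact absurd hin hpA
            · exact h5 p hp (fun h7 => hpA (Finset.mem_of_mem_erase h7))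
      rw [e1, e2]
      by_cases hBA : B = A
      · rw [hBA]
        exact h2
      · by_cases hsub : A ⊆ B
        · obtain ⟨p, hpB, hpA⟩ : ∃ p ∈ B, p ∉ A := by
            by_contra hcon
            push Not at hcon
            exact hBA (subset_antisymm hcon hsub)
          have hxp : x < p.1 := hxA.2.2 p (hBF hpB) hpA
          have e3 : cutL S F B ∩ Ioi x = cutL S F B :=
            inter_eq_left.2 fun s hs => hxp.trans (hs.2.1 p hpB)
          have e4 : cutR T F B ∩ Ioi y = cutR T F B :=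
            inter_eq_left.2 fun s hs => (hupp p (hBF hpB) hxp).trans (hs.2.1 p hpB)
          rw [e3, e4]
          exact h.cut B hBF
        · obtain ⟨p, hpA, hpB⟩ := Finset.not_subset.1 hsub
          have hpx := Finset.mem_filter.1 hpA
          have e3 : cutL S F B ∩ Ioi x = ∅ := by
            refine eq_empty_of_forall_notMem fun s hs => ?_
            exact lt_asymm (hs.1.2.2 p hpx.1 hpB) (hpx.2.trans hs.2)
          have e4 : cutR T F B ∩ Ioi y = ∅ := by
            refine eq_empty_of_forall_notMem fun s hs => ?_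
            exact lt_asymm (hs.1.2.2 p hpx.1 hpB) ((hlow p hpx.1 hpx.2).trans hs.2)
          rw [e3, e4]
          exact EE.empty
    · have hBF : A' ⊆ F := by
        intro p hp
        rcases Finset.mem_insert.1 (hA' hp) with h3 | h3
        · exact absurd (h3 ▸ hp) hin
        · exact h3
      have e1 : cutL S (insert (x, y) F) A' = cutL S F A' ∩ Iio x := by
        ext s
        constructor
        · rintro ⟨h3, h4, h5⟩
          exact ⟨⟨h3, h4, fun p hp hpB => h5 p (Finset.mem_insert_of_mem hp) hpB⟩,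
            h5 _ (Finset.mem_insert_self _ _) hin⟩
        · rintro ⟨⟨h3, h4, h5⟩, h6⟩
          refine ⟨h3, h4, fun p hp hpA => ?_⟩
          rcases Finset.mem_insert.1 hp with rfl | hp
          · exact h6
          · exact h5 p hp hpA
      have e2 : cutR T (insert (x, y) F) A' = cutR T F A' ∩ Iio y := by
        ext s
        constructor
        · rintro ⟨h3, h4, h5⟩
          exact ⟨⟨h3, h4, fun p hp hpB => h5 p (Finset.mem_insert_of_mem hp) hpB⟩,
            h5 _ (Finset.mem_insert_self _ _) hin⟩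
        · rintro ⟨⟨h3, h4, h5⟩, h6⟩
          refine ⟨h3, h4, fun p hp hpA => ?_⟩
          rcases Finset.mem_insert.1 hp with rfl | hp
          · exact h6
          · exact h5 p hp hpA
      rw [e1, e2]
      by_cases hBA : A' = A
      · rw [hBA]
        exact h1
      · by_cases hsub : A' ⊆ A
        · obtain ⟨p, hpA, hpB⟩ : ∃ p ∈ A, p ∉ A' := by
            by_contra hcon
            push Not at hcon
            exact hBA (subset_antisymm hsub hcon)
          have hpx := Finset.mem_filter.1 hpA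
          have e3 : cutL S F A' ∩ Iio x = cutL S F A' :=
            inter_eq_left.2 fun s hs => (hs.2.2 p hpx.1 hpB).trans hpx.2
          have e4 : cutR T F A' ∩ Iio y = cutR T F A' :=
            inter_eq_left.2 fun s hs => (hs.2.2 p hpx.1 hpB).trans (hlow p hpx.1 hpx.2)
          rw [e3, e4]
          exact h.cut A' hBF
        · obtain ⟨p, hpA', hpA⟩ := Finset.not_subset.1 hsub
          have hxp : x < p.1 := hxA.2.2 p (hBF hpA') hpA
          have e3 : cutL S F A' ∩ Iio x = ∅ := by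
            refine eq_empty_of_forall_notMem fun s hs => ?_
            exact lt_asymm (hs.1.2.1 p hpA') (lt_trans hs.2 hxp)
          have e4 : cutR T F A' ∩ Iio y = ∅ := by
            refine eq_empty_of_forall_notMem fun s hs => ?_
            exact lt_asymm (hs.1.2.1 p hpA') (lt_trans hs.2 (hupp p (hBF hpA') hxp))
          rw [e3, e4]
          exact EE.empty

theorem PG.extendBack {S : Set α} {T : Set β} {F : Finset (α × β)} (h : PG S T F) {y : β}
    (hy : y ∈ T) : ∃ x, ∃ F', PG S T F' ∧ F ⊆ F' ∧ (x, y) ∈ F' := by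
  obtain ⟨x, F', h1, h2, h3⟩ := h.swap.extend hy
  refine ⟨x, sw F', ?_, ?_, mem_sw.2 h3⟩
  · exact h1.swap
  · intro p hp
    rw [mem_sw]
    apply h2
    rw [mem_sw]
    exact hp

end Count

theorem t_efcount : StEFcount := by
  classical
  intro α β _ _ _ _ S T h
  let P := {F : Finset (α × β) // PG S T F}
  have : Encodable S := Encodable.ofCountable _
  have : Encodable T := Encodable.ofCountable _
  let D : S ⊕ T → Order.Cofinal P := fun i => match i with
    | .inl s => ⟨{F | ∃ t, (s.1, t) ∈ F.1}, fun F => by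
        obtain ⟨y, F', h1, h2, h3⟩ := F.2.extend s.2
        exact ⟨⟨F', h1⟩, ⟨y, h3⟩, h2⟩⟩
    | .inr t => ⟨{F | ∃ s, (s, t.1) ∈ F.1}, fun F => by
        obtain ⟨x, F', h1, h2, h3⟩ := F.2.extendBack t.2
        exact ⟨⟨F', h1⟩, ⟨x, h3⟩, h2⟩⟩
  let p0 : P := ⟨∅, PG.empty h⟩
  let I := Order.idealOfCofinals p0 D
  refine isoS_of_rel (fun s t => ∃ F ∈ I, (s.1, t.1) ∈ F.1) ?_ ?_ ?_
  · intro s
    obtain ⟨F, ⟨t, ht⟩, hF⟩ := Order.cofinal_meets_idealOfCofinals p0 D (.inl s)
    exact ⟨⟨t, F.2.memT _ ht⟩, F, hF, ht⟩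
  · intro t
    obtain ⟨F, ⟨s, hs⟩, hF⟩ := Order.cofinal_meets_idealOfCofinals p0 D (.inr t)
    exact ⟨⟨s, F.2.memS _ hs⟩, F, hF, hs⟩
  · rintro s s' t t' ⟨F, hF, h1⟩ ⟨F', hF', h2⟩
    obtain ⟨F'', -, h3, h4⟩ := I.directed F hF F' hF'
    exact F''.2.ord _ (h3 h1) _ (h4 h2)

end Pool.Agent.W928.CB
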