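import Pool.Agent.W928.CB.EF

/-!
# CB-LEMA: a criterion for embedding as a final segment; gluing lemmas
-/

namespace Pool.Agent.W928.CB
open Set Pool.Agent.W919.CB

section
variable {α β γ : Type} [LinearOrder α] [LinearOrder β] [LinearOrder γ]

/-- Gluing two adjacent pieces. -/
theorem glue2 {S₁ S₂ : Set α} {T₁ T₂ : Set β} (hS : ∀ a ∈ S₁, ∀ b ∈ S₂, a < b)
    (hT : ∀ a ∈ T₁, ∀ b ∈ T₂, a < b) (h1 : IsoS S₁ T₁) (h2 : IsoS S₂ T₂) :
    IsoS (S₁ ∪ S₂) (T₁ ∪ T₂) := by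
  obtain ⟨e₁⟩ := h1
  obtain ⟨e₂⟩ := h2
  refine isoS_of_rel (fun s t => (∃ h : s.1 ∈ S₁, (e₁ ⟨s.1, h⟩).1 = t.1) ∨
    ∃ h : s.1 ∈ S₂, (e₂ ⟨s.1, h⟩).1 = t.1) ?_ ?_ ?_
  · rintro ⟨s, hs | hs⟩
    · exact ⟨⟨(e₁ ⟨s, hs⟩).1, Or.inl (e₁ ⟨s, hs⟩).2⟩, Or.inl ⟨hs, rfl⟩⟩
    · exact ⟨⟨(e₂ ⟨s, hs⟩).1, Or.inr (e₂ ⟨s, hs⟩).2⟩, Or.inr ⟨hs, rfl⟩⟩
  · rintro ⟨t, ht | ht⟩
    · exact ⟨⟨(e₁.symm ⟨t, ht⟩).1, Or.inl (e₁.symm ⟨t, ht⟩).2⟩,
        Or.inl ⟨(e₁.symm ⟨t, ht⟩).2, by simp⟩⟩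
    · exact ⟨⟨(e₂.symm ⟨t, ht⟩).1, Or.inr (e₂.symm ⟨t, ht⟩).2⟩,
        Or.inr ⟨(e₂.symm ⟨t, ht⟩).2, by simp⟩⟩
  · rintro ⟨s, hs⟩ ⟨s', hs'⟩ ⟨t, ht⟩ ⟨t', ht'⟩ (⟨h1, h2⟩ | ⟨h1, h2⟩) (⟨h3, h4⟩ | ⟨h3, h4⟩)
    · simp only at h2 h4
      subst h2 h4
      simp only [Subtype.mk_lt_mk, Subtype.coe_lt_coe, e₁.lt_iff_lt]
    · simp only at h2 h4
      subst h2 h4
      simp only [Subtype.mk_lt_mk]
      exact iff_of_true (hS _ h1 _ h3) (hT _ (e₁ _).2 _ (e₂ _).2)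
    · simp only at h2 h4
      subst h2 h4
      simp only [Subtype.mk_lt_mk]
      exact iff_of_false (hS _ h3 _ h1).asymm (hT _ (e₁ _).2 _ (e₂ _).2).asymm
    · simp only at h2 h4
      subst h2 h4
      simp only [Subtype.mk_lt_mk, Subtype.coe_lt_coe, e₂.lt_iff_lt]

theorem isoS_singleton (a : α) (b : β) : IsoS ({a} : Set α) ({b} : Set β) := by
  refine isoS_of_rel (fun _ _ => True) ?_ ?_ ?_
  · intro s
    exact ⟨⟨b, rfl⟩, trivial⟩
  · intro s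
    exact ⟨⟨a, rfl⟩, trivial⟩
  · rintro ⟨s, hs⟩ ⟨s', hs'⟩ ⟨t, ht⟩ ⟨t', ht'⟩ - -
    simp only [mem_singleton_iff] at hs hs' ht ht'
    subst hs hs' ht ht'
    simp

theorem isoS_empty : IsoS (∅ : Set α) (∅ : Set β) := by
  refine isoS_of_rel (fun _ _ => True) ?_ ?_ ?_
  · rintro ⟨s, hs⟩
    exact absurd hs (by simp)
  · rintro ⟨s, hs⟩
    exact absurd hs (by simp)
  · rintro ⟨s, hs⟩
    exact absurd hs (by simp)

/-- Gluing around a point. -/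
theorem glue_pt {S₁ S₂ : Set α} {T₁ T₂ : Set β} {p : α} {q : β} (hS1 : ∀ a ∈ S₁, a < p)
    (hS2 : ∀ a ∈ S₂, p < a) (hT1 : ∀ a ∈ T₁, a < q) (hT2 : ∀ a ∈ T₂, q < a)
    (h1 : IsoS S₁ T₁) (h2 : IsoS S₂ T₂) : IsoS (S₁ ∪ {p} ∪ S₂) (T₁ ∪ {q} ∪ T₂) := by
  refine glue2 ?_ ?_ (glue2 ?_ ?_ h1 (isoS_singleton p q)) h2
  · rintro a (ha | ha) b hb
    · exact (hS1 a ha).trans (hS2 b hb)
    · rw [mem_singleton_iff.1 ha]
      exact hS2 b hb
  · rintro a (ha | ha) b hb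
    · exact (hT1 a ha).trans (hT2 b hb)
    · rw [mem_singleton_iff.1 ha]
      exact hT2 b hb
  · rintro a ha b hb
    rw [mem_singleton_iff.1 hb]
    exact hS1 a ha
  · rintro a ha b hb
    rw [mem_singleton_iff.1 hb]
    exact hT1 a ha

/-- Gluing a sequence of pieces downwards. -/
theorem glue_upper (U : ℕ → Set α) (V : ℕ → Set β) (hU : ∀ n, IsUpperSet (U n))
    (hV : ∀ n, IsUpperSet (V n)) (mU : Monotone U) (mV : Monotone V) (hU0 : U 0 = ∅)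
    (hV0 : V 0 = ∅) (h : ∀ n, IsoS (U (n + 1) \ U n) (V (n + 1) \ V n)) :
    IsoS (⋃ n, U n) (⋃ n, V n) := by
  classical
  let e := fun n => Classical.choice (h n)
  refine isoS_of_rel (fun s t => ∃ n, ∃ h : s.1 ∈ U (n + 1) \ U n, (e n ⟨s.1, h⟩).1 = t.1)
    ?_ ?_ ?_
  · rintro ⟨s, hs⟩
    rw [mem_iUnion] at hs
    have h1 := Nat.find_spec hs
    obtain ⟨k, hk⟩ : ∃ k, Nat.find hs = k + 1 := by
      rcases h2 : Nat.find hs with _ | k
      · rw [h2, hU0] at h1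
        exact absurd h1 (by simp)
      · exact ⟨k, rfl⟩
    have h3 : s ∉ U k := Nat.find_min hs (by omega)
    rw [hk] at h1
    exact ⟨⟨(e k ⟨s, h1, h3⟩).1, mem_iUnion.2 ⟨k + 1, (e k ⟨s, h1, h3⟩).2.1⟩⟩, k, ⟨h1, h3⟩, rfl⟩
  · rintro ⟨s, hs⟩
    rw [mem_iUnion] at hs
    have h1 := Nat.find_spec hs
    obtain ⟨k, hk⟩ : ∃ k, Nat.find hs = k + 1 := by
      rcases h2 : Nat.find hs with _ | k
      · rw [h2, hV0] at h1
        exact absurd h1 (by simp)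
      · exact ⟨k, rfl⟩
    have h3 : s ∉ V k := Nat.find_min hs (by omega)
    rw [hk] at h1
    exact ⟨⟨((e k).symm ⟨s, h1, h3⟩).1, mem_iUnion.2 ⟨k + 1, ((e k).symm ⟨s, h1, h3⟩).2.1⟩⟩, k,
      ((e k).symm ⟨s, h1, h3⟩).2, by simp⟩
  · rintro ⟨s, hs⟩ ⟨s', hs'⟩ ⟨t, ht⟩ ⟨t', ht'⟩ ⟨n, h1, h2⟩ ⟨m, h3, h4⟩
    simp only at h2 h4
    subst h2 h4
    simp only [Subtype.mk_lt_mk]
    rcases lt_trichotomy n m with hnm | rfl | hnm
    · refine iff_of_false (not_lt.2 ?_) (not_lt.2 ?_)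
      · by_contra hcon
        exact h3.2 (hU m (not_le.1 hcon).le (mU hnm h1.1))
      · by_contra hcon
        exact (e m ⟨s', h3⟩).2.2 (hV m (not_le.1 hcon).le (mV hnm (e n ⟨s, h1⟩).2.1))
    · rw [Subtype.coe_lt_coe, (e n).lt_iff_lt, Subtype.mk_lt_mk]
    · refine iff_of_true ?_ ?_
      · by_contra hcon
        exact h1.2 (hU n (not_lt.1 hcon) (mU hnm h3.1))
      · by_contra hcon
        exact (e n ⟨s, h1⟩).2.2 (hV n (not_lt.1 hcon) (mV hnm (e m ⟨s', h3⟩).2.1))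

theorem isoS_trans {S : Set α} {T : Set β} {U : Set γ} (h : IsoS S T) (h' : IsoS T U) :
    IsoS S U := by
  obtain ⟨e⟩ := h
  obtain ⟨e'⟩ := h'
  exact ⟨e.trans e'⟩

theorem isoS_symm {S : Set α} {T : Set β} (h : IsoS S T) : IsoS T S := by
  obtain ⟨e⟩ := h
  exact ⟨e.symm⟩

theorem isoS_Ioi_Ioi {a : α} {b : β} (e : Ioi a ≃o Ioi b) (s : Ioi a) :
    IsoS (Ioi s.1) (Ioi (e s).1) := by
  have := isoS_Ioi e s
  rwa [inter_eq_right.2 (Ioi_subset_Ioi (le_of_lt s.2)),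
    inter_eq_right.2 (Ioi_subset_Ioi (le_of_lt (e s).2))] at this

theorem univ_iso {T : Set β} (h : IsoS (univ : Set α) T) : Nonempty (α ≃o T) := by
  obtain ⟨e⟩ := h
  exact ⟨OrderIso.Set.univ.symm.trans e⟩

end

theorem t_lemA : StLemA := by
  classical
  intro α β _ _ _ hyp1 hyp2
  rcases isEmpty_or_nonempty α with hα | hα
  · refine ⟨∅, isUpperSet_empty, univ_iso ?_⟩
    rw [univ_eq_empty_iff.2 hα]
    exact isoS_empty
  by_cases hmin : ∃ m : α, ∀ a, m ≤ a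
  · obtain ⟨m, hm⟩ := hmin
    obtain ⟨u', hu'⟩ := hyp2 m
    refine ⟨Ici u', isUpperSet_Ici u', univ_iso ?_⟩
    have h1 : (univ : Set α) = {m} ∪ Ioi m := by
      ext a
      simp only [mem_univ, mem_union, mem_singleton_iff, mem_Ioi, true_iff]
      rcases (hm a).eq_or_lt with h | h
      · exact Or.inl h.symm
      · exact Or.inr h
    have h2 : Ici u' = {u'} ∪ Ioi u' := by
      ext a
      simp only [mem_Ici, mem_union, mem_singleton_iff, mem_Ioi]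
      rw [le_iff_eq_or_lt, eq_comm]
    rw [h1, h2]
    refine glue2 ?_ ?_ (isoS_singleton m u') hu'
    · rintro a ha b hb
      rw [mem_singleton_iff.1 ha]
      exact hb
    · rintro a ha b hb
      rw [mem_singleton_iff.1 ha]
      exact hb
  push Not at hmin
  -- the step
  have step : ∀ x a : α, ∃ x' ≤ a, ∀ v, x ≤ v → ¬ IsoS (Ioi x') (Ioi v) := by
    intro x a
    obtain ⟨x₂, hx₂⟩ := hmin x
    obtain ⟨u, hu⟩ := hyp1 x₂
    refine ⟨min u a, min_le_right _ _, fun v hv hiso => ?_⟩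
    rcases (min_le_left u a).eq_or_lt with h | h
    · rw [h] at hiso
      exact hu v (hx₂.trans_le hv) hiso
    · obtain ⟨e⟩ := hiso
      refine hu (e ⟨u, h⟩).1 ((hx₂.trans_le hv).trans (e ⟨u, h⟩).2) ?_
      exact isoS_Ioi_Ioi e ⟨u, h⟩
  choose nx hnx1 hnx2 using step
  obtain ⟨en, hen⟩ := exists_surjective_nat α
  obtain ⟨x, hx0, hxs⟩ : ∃ x : ℕ → α, x 0 = en 0 ∧ ∀ n, x (n + 1) = nx (x n) (en n) :=
    ⟨fun n => Nat.rec (en 0) (fun n x => nx x (en n)) n, rfl, fun n => rfl⟩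
  have hxlt : ∀ n, x (n + 1) < x n := by
    intro n
    by_contra hcon
    have := hnx2 (x n) (en n) (x (n + 1)) (not_lt.1 hcon)
    rw [hxs] at this
    exact this (IsoS.refl _)
  have hxanti : StrictAnti x := strictAnti_nat_of_succ_lt hxlt
  have hP : ∀ i j, i < j → ∀ v, x i ≤ v → ¬ IsoS (Ioi (x j)) (Ioi v) := by
    intro i j hij v hv
    obtain ⟨k, rfl⟩ : ∃ k, j = k + 1 := ⟨j - 1, by omega⟩
    rw [hxs]
    exact hnx2 _ _ v ((hxanti.antitone (by omega : i ≤ k)).trans hv)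
  have hcoin : ∀ a, ∃ n, x n ≤ a := by
    intro a
    obtain ⟨n, rfl⟩ := hen a
    refine ⟨n + 1, ?_⟩
    rw [hxs]
    exact hnx1 _ _
  have key : ∀ {γ : Type} [LinearOrder γ] (y y' : γ) (i j : ℕ), i < j →
      IsoS (Ioi (x i)) (Ioi y) → IsoS (Ioi (x j)) (Ioi y') → y' < y := by
    intro γ _ y y' i j hij h1 h2
    by_contra hcon
    rcases (not_lt.1 hcon).eq_or_lt with h | h
    · subst h
      exact hP i j hij (x i) le_rfl (isoS_trans h2 (isoS_symm h1))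
    · obtain ⟨e⟩ := h1
      have h3 := isoS_Ioi_Ioi e.symm ⟨y', h⟩
      exact hP i j hij _ (le_of_lt (e.symm ⟨y', h⟩).2) (isoS_trans h2 h3)
  -- the pieces
  let K' : ℕ → Set α := fun n => {t | ∃ y, IsoS (Ioi (x n)) (Ioi y) ∧ y ≤ t}
  let K : ℕ → Set β := fun n => {t | ∃ y, IsoS (Ioi (x n)) (Ioi y) ∧ y ≤ t}
  have hK' : ∀ n, K' n ⊆ K' (n + 1) := by
    rintro n t ⟨y, h1, h2⟩
    exact ⟨x (n + 1), IsoS.refl _, (key y (x (n + 1)) n (n + 1) (by omega) h1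
      (IsoS.refl _)).le.trans h2⟩
  have hK : ∀ n, K n ⊆ K (n + 1) := by
    rintro n t ⟨y, h1, h2⟩
    obtain ⟨y', hy'⟩ := hyp2 (x (n + 1))
    exact ⟨y', hy', (key y y' n (n + 1) (by omega) h1 hy').le.trans h2⟩
  have uK' : ∀ n, IsUpperSet (K' n) := by
    rintro n a b hab ⟨y, h1, h2⟩
    exact ⟨y, h1, h2.trans hab⟩
  have uK : ∀ n, IsUpperSet (K n) := by
    rintro n a b hab ⟨y, h1, h2⟩
    exact ⟨y, h1, h2.trans hab⟩
  let U : ℕ → Set α := fun n => Nat.casesOn n ∅ K'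
  let V : ℕ → Set β := fun n => Nat.casesOn n ∅ K
  have piece : ∀ n, IsoS (U (n + 1) \ U n) (V (n + 1) \ V n) := by
    intro n
    obtain ⟨y, ⟨φ⟩⟩ := hyp2 (x (n + 1))
    have hφ : IsoS (Ioi (x (n + 1))) (Ioi y) := ⟨φ⟩
    have hmem : ∀ i ≤ n, ∀ s : Ioi (x (n + 1)), s.1 ∈ K' i ↔ (φ s).1 ∈ K i := by
      intro i hi s
      constructor
      · rintro ⟨z, h1, h2⟩
        have hz : x (n + 1) < z := key z (x (n + 1)) i (n + 1) (by omega) h1 (IsoS.refl _)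
        refine ⟨(φ ⟨z, hz⟩).1, isoS_trans h1 (isoS_Ioi_Ioi φ ⟨z, hz⟩), ?_⟩
        exact φ.monotone (show (⟨z, hz⟩ : Ioi (x (n + 1))) ≤ s from h2)
      · rintro ⟨z, h1, h2⟩
        have hz : y < z := key z y i (n + 1) (by omega) h1 hφ
        refine ⟨(φ.symm ⟨z, hz⟩).1, isoS_trans h1 (isoS_Ioi_Ioi φ.symm ⟨z, hz⟩), ?_⟩
        have h3 : φ.symm ⟨z, hz⟩ ≤ φ.symm (φ s) :=
          φ.symm.monotone (show (⟨z, hz⟩ : Ioi y) ≤ φ s from h2)
        rw [φ.symm_apply_apply] at h3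
        exact h3
    have hsubK' : K' n ⊆ Ioi (x (n + 1)) := by
      rintro t ⟨z, h1, h2⟩
      exact (key z (x (n + 1)) n (n + 1) (by omega) h1 (IsoS.refl _)).trans_le h2
    have hsubK : K n ⊆ Ioi y := by
      rintro t ⟨z, h1, h2⟩
      exact (key z y n (n + 1) (by omega) h1 hφ).trans_le h2
    refine isoS_restrict φ _ _ (sdiff_subset.trans hsubK') (sdiff_subset.trans hsubK) ?_
    intro s
    rcases n with _ | n
    · have := hmem 0 le_rfl s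
      have e1 : U (0 + 1) \ U 0 = K' 0 := sdiff_empty
      have e2 : V (0 + 1) \ V 0 = K 0 := sdiff_empty
      rw [e1, e2]
      exact this
    · have h1 := hmem (n + 1) le_rfl s
      have h2 := hmem n (by omega) s
      change (s.1 ∈ K' (n + 1) ∧ s.1 ∉ K' n) ↔ ((φ s).1 ∈ K (n + 1) ∧ (φ s).1 ∉ K n)
      rw [h1, h2]
  have hmU : Monotone U := by
    refine monotone_nat_of_le_succ fun n => ?_
    rcases n with _ | n
    · exact empty_subset _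
    · exact hK' n
  have hmV : Monotone V := by
    refine monotone_nat_of_le_succ fun n => ?_
    rcases n with _ | n
    · exact empty_subset _
    · exact hK n
  have huU : ∀ n, IsUpperSet (U n) := by
    intro n
    rcases n with _ | n
    · exact isUpperSet_empty
    · exact uK' n
  have huV : ∀ n, IsUpperSet (V n) := by
    intro n
    rcases n with _ | n
    · exact isUpperSet_empty
    · exact uK n
  refine ⟨⋃ n, V n, isUpperSet_iUnion huV, univ_iso ?_⟩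
  have hUu : (univ : Set α) = ⋃ n, U n := by
    refine (eq_univ_of_forall fun a => ?_).symm
    obtain ⟨n, hn⟩ := hcoin a
    exact mem_iUnion.2 ⟨n + 1, x n, IsoS.refl _, hn⟩
  rw [hUu]
  exact glue_upper U V huU huV hmU hmV rfl rfl piece

end Pool.Agent.W928.CB
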