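import Pool.Agent.W928.CB.LemA

/-!
# CB-LEMC: self-absorbing orders
-/

namespace Pool.Agent.W928.CB
open Set Pool.Agent.W919.CB

section
variable {α β γ : Type} [LinearOrder α] [LinearOrder β] [LinearOrder γ]

theorem isoS_of_subsets {S : Set α} {T : Set β} (e : S ≃o T) {S₁ : Set α} {T₁ : Set β}
    (hS : S₁ ⊆ S) (hT : T₁ ⊆ T) (h : ∀ s (hs : s ∈ S), s ∈ S₁ ↔ (e ⟨s, hs⟩).1 ∈ T₁) :
    IsoS S₁ T₁ :=
  isoS_restrict e S₁ T₁ hS hT fun s => h s.1 s.2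

theorem isoS_Ioo_mid {a b : α} {a' b' : β} (e : Ioo a b ≃o Ioo a' b') (s t : Ioo a b) :
    IsoS (Ioo s.1 t.1) (Ioo (e s).1 (e t).1) := by
  refine isoS_of_subsets e (Ioo_subset_Ioo s.2.1.le t.2.2.le)
    (Ioo_subset_Ioo (e s).2.1.le (e t).2.2.le) ?_
  intro r hr
  have h1 : s.1 < r ↔ s < (⟨r, hr⟩ : Ioo a b) := Iff.rfl
  have h2 : r < t.1 ↔ (⟨r, hr⟩ : Ioo a b) < t := Iff.rfl
  rw [mem_Ioo, mem_Ioo, h1, h2, ← e.lt_iff_lt, ← e.lt_iff_lt]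
  rfl

theorem isoS_Ioo_right {a b : α} {a' b' : β} (e : Ioo a b ≃o Ioo a' b') (s : Ioo a b) :
    IsoS (Ioo s.1 b) (Ioo (e s).1 b') := by
  refine isoS_of_subsets e (Ioo_subset_Ioo s.2.1.le le_rfl)
    (Ioo_subset_Ioo (e s).2.1.le le_rfl) ?_
  intro r hr
  have h1 : s.1 < r ↔ s < (⟨r, hr⟩ : Ioo a b) := Iff.rfl
  rw [mem_Ioo, mem_Ioo, h1, ← e.lt_iff_lt]
  exact and_congr Iff.rfl (iff_of_true hr.2 (e ⟨r, hr⟩).2.2)

theorem isoS_Ioo_left {a b : α} {a' b' : β} (e : Ioo a b ≃o Ioo a' b') (s : Ioo a b) :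
    IsoS (Ioo a s.1) (Ioo a' (e s).1) := by
  refine isoS_of_subsets e (Ioo_subset_Ioo le_rfl s.2.2.le)
    (Ioo_subset_Ioo le_rfl (e s).2.2.le) ?_
  intro r hr
  have h1 : r < s.1 ↔ (⟨r, hr⟩ : Ioo a b) < s := Iff.rfl
  rw [mem_Ioo, mem_Ioo, h1, ← e.lt_iff_lt]
  exact and_congr (iff_of_true hr.1 (e ⟨r, hr⟩).2.1) Iff.rfl

theorem isoS_Ioi_mid {a : α} {a' : β} (e : Ioi a ≃o Ioi a') (s t : Ioi a) :
    IsoS (Ioo s.1 t.1) (Ioo (e s).1 (e t).1) := by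
  refine isoS_of_subsets e (fun r hr => lt_trans s.2 hr.1) (fun r hr => lt_trans (e s).2 hr.1) ?_
  intro r hr
  have h1 : s.1 < r ↔ s < (⟨r, hr⟩ : Ioi a) := Iff.rfl
  have h2 : r < t.1 ↔ (⟨r, hr⟩ : Ioi a) < t := Iff.rfl
  rw [mem_Ioo, mem_Ioo, h1, h2, ← e.lt_iff_lt, ← e.lt_iff_lt]
  rfl

theorem isoS_Ioi_left {a : α} {a' : β} (e : Ioi a ≃o Ioi a') (s : Ioi a) :
    IsoS (Ioo a s.1) (Ioo a' (e s).1) := by
  refine isoS_of_subsets e (fun r hr => hr.1) (fun r hr => hr.1) ?_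
  intro r hr
  have h1 : r < s.1 ↔ (⟨r, hr⟩ : Ioi a) < s := Iff.rfl
  rw [mem_Ioo, mem_Ioo, h1, ← e.lt_iff_lt]
  exact and_congr (iff_of_true hr (e ⟨r, hr⟩).2) Iff.rfl

theorem Ico_split {a b : α} (h : a < b) : Ico a b = {a} ∪ Ioo a b := by
  ext t
  simp only [mem_Ico, mem_union, mem_singleton_iff, mem_Ioo]
  constructor
  · rintro ⟨h1, h2⟩
    rcases h1.eq_or_lt with rfl | h3
    · exact Or.inl rfl
    · exact Or.inr ⟨h3, h2⟩
  · rintro (rfl | ⟨h1, h2⟩)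
    · exact ⟨le_rfl, h⟩
    · exact ⟨h1.le, h2⟩

theorem Ici_split (a : α) : Ici a = {a} ∪ Ioi a := by
  ext t
  simp only [mem_Ici, mem_union, mem_singleton_iff, mem_Ioi]
  rw [le_iff_eq_or_lt, eq_comm]

theorem isoS_Ico {a b : α} {a' b' : β} (hab : a < b) (hab' : a' < b')
    (h : IsoS (Ioo a b) (Ioo a' b')) : IsoS (Ico a b) (Ico a' b') := by
  rw [Ico_split hab, Ico_split hab']
  refine glue2 ?_ ?_ (isoS_singleton _ _) h
  · intro x hx y hy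
    rw [mem_singleton_iff.1 hx]
    exact hy.1
  · intro x hx y hy
    rw [mem_singleton_iff.1 hx]
    exact hy.1

theorem isoS_Ici {a : α} {a' : β} (h : IsoS (Ioi a) (Ioi a')) : IsoS (Ici a) (Ici a') := by
  rw [Ici_split, Ici_split]
  refine glue2 ?_ ?_ (isoS_singleton _ _) h
  · intro x hx y hy
    rw [mem_singleton_iff.1 hx]
    exact hy
  · intro x hx y hy
    rw [mem_singleton_iff.1 hx]
    exact hy

/-- Gluing along two decreasing sequences. -/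
theorem glue_seq (z : ℕ → α) (m : ℕ → β) (hz : StrictAnti z) (hm : StrictAnti m)
    (hcoin : ∀ a, ∃ n, z n ≤ a) (h0 : IsoS (Ioi (z 0)) (Ioi (m 0)))
    (h : ∀ i, IsoS (Ioo (z (i + 1)) (z i)) (Ioo (m (i + 1)) (m i))) :
    IsoS (univ : Set α) {t | ∃ i, m i ≤ t} := by
  let U : ℕ → Set α := fun n => Nat.casesOn n ∅ (fun n => Ici (z n))
  let V : ℕ → Set β := fun n => Nat.casesOn n ∅ (fun n => Ici (m n))
  have huU : ∀ n, IsUpperSet (U n) := by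
    intro n
    rcases n with _ | n
    · exact isUpperSet_empty
    · exact isUpperSet_Ici _
  have huV : ∀ n, IsUpperSet (V n) := by
    intro n
    rcases n with _ | n
    · exact isUpperSet_empty
    · exact isUpperSet_Ici _
  have hmU : Monotone U := by
    refine monotone_nat_of_le_succ fun n => ?_
    rcases n with _ | n
    · exact empty_subset _
    · exact Ici_subset_Ici.2 (hz (by omega)).le
  have hmV : Monotone V := by
    refine monotone_nat_of_le_succ fun n => ?_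
    rcases n with _ | n
    · exact empty_subset _
    · exact Ici_subset_Ici.2 (hm (by omega)).le
  have hU : (univ : Set α) = ⋃ n, U n := by
    refine (eq_univ_of_forall fun a => ?_).symm
    obtain ⟨n, hn⟩ := hcoin a
    exact mem_iUnion.2 ⟨n + 1, hn⟩
  have hV : {t | ∃ i, m i ≤ t} = ⋃ n, V n := by
    ext t
    rw [mem_iUnion]
    constructor
    · rintro ⟨i, hi⟩
      exact ⟨i + 1, hi⟩
    · rintro ⟨i, hi⟩
      rcases i with _ | i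
      · exact absurd hi (notMem_empty _)
      · exact ⟨i, hi⟩
  rw [hU, hV]
  refine glue_upper U V huU huV hmU hmV rfl rfl ?_
  intro n
  rcases n with _ | n
  · have e1 : U (0 + 1) \ U 0 = Ici (z 0) := sdiff_empty
    have e2 : V (0 + 1) \ V 0 = Ici (m 0) := sdiff_empty
    rw [e1, e2]
    exact isoS_Ici h0
  · have e1 : U (n + 1 + 1) \ U (n + 1) = Ico (z (n + 1)) (z n) := by
      change Ici (z (n + 1)) \ Ici (z n) = _
      ext t
      simp [mem_Ico]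
    have e2 : V (n + 1 + 1) \ V (n + 1) = Ico (m (n + 1)) (m n) := by
      change Ici (m (n + 1)) \ Ici (m n) = _
      ext t
      simp [mem_Ico]
    rw [e1, e2]
    exact isoS_Ico (hz (by omega)) (hm (by omega)) (h n)

end

theorem t_lemC : StLemC := by
  classical
  intro α _ _ _ hB
  choose w hw1 hw2 using hB
  -- the case at infinity
  obtain ⟨a0⟩ : Nonempty α := inferInstance
  have hinf : ∀ u : α, ∃ u' : α, w a0 < u' ∧ IsoS (Ioi u) (Ioi u') := by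
    intro u
    rcases lt_or_ge u a0 with h | h
    · obtain ⟨u', h1, h2, h3⟩ := hw2 a0 u h
      refine ⟨u', h1, ?_⟩
      have e1 : ∀ v < a0, Ioi v = Ioo v a0 ∪ Ici a0 := by
        intro v hv
        ext t
        simp only [mem_Ioi, mem_union, mem_Ioo, mem_Ici]
        constructor
        · intro ht
          rcases lt_or_ge t a0 with h4 | h4
          · exact Or.inl ⟨ht, h4⟩
          · exact Or.inr h4
        · rintro (h4 | h4)
          · exact h4.1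
          · exact hv.trans_le h4
      rw [e1 u h, e1 u' h2]
      exact glue2 (fun x hx y hy => hx.2.trans_le hy) (fun x hx y hy => hx.2.trans_le hy) h3
        (IsoS.refl _)
    · exact ⟨u, (hw1 a0).trans_le h, IsoS.refl _⟩
  obtain ⟨en, hen⟩ := exists_surjective_nat α
  obtain ⟨z, hz0, hzs⟩ : ∃ z : ℕ → α, z 0 = w a0 ∧ ∀ n, z (n + 1) = min (w (z n)) (en n) :=
    ⟨fun n => Nat.rec (w a0) (fun n x => min (w x) (en n)) n, rfl, fun n => rfl⟩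
  have hzlt : ∀ n, z (n + 1) < z n := by
    intro n
    rw [hzs]
    exact (min_le_left _ _).trans_lt (hw1 _)
  have hzanti : StrictAnti z := strictAnti_nat_of_succ_lt hzlt
  have hcoin : ∀ a, ∃ n, z n ≤ a := by
    intro a
    obtain ⟨n, rfl⟩ := hen a
    refine ⟨n + 1, ?_⟩
    rw [hzs]
    exact min_le_right _ _
  have hBz : ∀ i, ∀ u < z i, ∃ u', z (i + 1) < u' ∧ u' < z i ∧ IsoS (Ioo u (z i)) (Ioo u' (z i)) := by
    intro i u hu
    obtain ⟨u', h1, h2, h3⟩ := hw2 (z i) u hu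
    refine ⟨u', ?_, h2, h3⟩
    rw [hzs]
    exact (min_le_left _ _).trans_lt h1
  have hD : ∀ i, ∃ u c, z (i + 1) < u ∧ u < c ∧ c < z i ∧
      IsoS (Ioo (z (i + 2)) (z (i + 1))) (Ioo u c) ∧
      IsoS (Ioo (z (i + 1)) (z i)) (Ioo c (z i)) := by
    intro i
    obtain ⟨u, h1, h2, ⟨φ⟩⟩ := hBz i (z (i + 2)) ((hzlt _).trans (hzlt _))
    have hmem : z (i + 1) ∈ Ioo (z (i + 2)) (z i) := ⟨hzlt _, hzlt _⟩
    exact ⟨u, (φ ⟨_, hmem⟩).1, h1, (φ ⟨_, hmem⟩).2.1, (φ ⟨_, hmem⟩).2.2,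
      isoS_Ioo_left φ ⟨_, hmem⟩, isoS_Ioo_right φ ⟨_, hmem⟩⟩
  -- start
  have hstart : ∃ p m, z 0 < p ∧ p < m ∧ IsoS (Ioo (z 1) (z 0)) (Ioo p m) ∧
      IsoS (Ioi (z 0)) (Ioi m) := by
    obtain ⟨u, h1, ⟨φ⟩⟩ := hinf (z 1)
    have hmem : z 0 ∈ Ioi (z 1) := hzlt 0
    refine ⟨u, (φ ⟨_, hmem⟩).1, ?_, (φ ⟨_, hmem⟩).2, isoS_Ioi_left φ ⟨_, hmem⟩,
      isoS_Ioi_Ioi φ ⟨_, hmem⟩⟩
    rw [hz0]
    exact h1
  -- the step
  have hstep : ∀ i p m, z 0 < p → p < m → IsoS (Ioo (z (i + 1)) (z i)) (Ioo p m) →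
      ∃ p' m', z 0 < p' ∧ p' < m' ∧ IsoS (Ioo (z (i + 2)) (z (i + 1))) (Ioo p' m') ∧
        m' < m ∧ IsoS (Ioo (z (i + 1)) (z i)) (Ioo m' m) := by
    rintro i p m h1 h2 ⟨θ⟩
    obtain ⟨u, c, h3, h4, h5, h6, h7⟩ := hD i
    have hu : u ∈ Ioo (z (i + 1)) (z i) := ⟨h3, h4.trans h5⟩
    have hc : c ∈ Ioo (z (i + 1)) (z i) := ⟨h3.trans h4, h5⟩
    refine ⟨(θ ⟨u, hu⟩).1, (θ ⟨c, hc⟩).1, h1.trans (θ ⟨u, hu⟩).2.1, ?_,
      isoS_trans h6 (isoS_Ioo_mid θ ⟨u, hu⟩ ⟨c, hc⟩), (θ ⟨c, hc⟩).2.2,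
      isoS_trans h7 (isoS_Ioo_right θ ⟨c, hc⟩)⟩
    exact θ.lt_iff_lt.2 (show (⟨u, hu⟩ : Ioo (z (i + 1)) (z i)) < ⟨c, hc⟩ from h4)
  obtain ⟨p0, m0, hs1, hs2, hs3, hs4⟩ := hstart
  let St' := fun i => {pm : α × α // z 0 < pm.1 ∧ pm.1 < pm.2 ∧
    IsoS (Ioo (z (i + 1)) (z i)) (Ioo pm.1 pm.2)}
  have hnext : ∀ i (s : St' i), ∃ s' : St' (i + 1), s'.1.2 < s.1.2 ∧
      IsoS (Ioo (z (i + 1)) (z i)) (Ioo s'.1.2 s.1.2) := by
    rintro i ⟨⟨p, m⟩, h1, h2, h3⟩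
    obtain ⟨p', m', h4, h5, h6, h7, h8⟩ := hstep i p m h1 h2 h3
    exact ⟨⟨(p', m'), h4, h5, h6⟩, h7, h8⟩
  choose nx hnx1 hnx2 using hnext
  let q : ∀ i, St' i := fun i => Nat.rec ⟨(p0, m0), hs1, hs2, hs3⟩ (fun i s => nx i s) i
  have hq : ∀ i, q (i + 1) = nx i (q i) := fun i => rfl
  have hml : StrictAnti fun i => (q i).1.2 := by
    refine strictAnti_nat_of_succ_lt fun i => ?_
    rw [hq]
    exact hnx1 i (q i)
  have hfin := glue_seq z (fun i => (q i).1.2) hzanti hml hcoin hs4 (by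
    intro i
    have := hnx2 i (q i)
    rw [← hq] at this
    exact this)
  refine ⟨z 0, _, ?_, ?_, univ_iso hfin⟩
  · rintro t ⟨i, hi⟩
    exact ((q i).2.1.trans (q i).2.2.1).trans_le hi
  · rintro a b hab ⟨i, hi⟩
    exact ⟨i, hi.trans hab⟩

end Pool.Agent.W928.CB
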